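import Pool.Agent.CY.Geo
import Pool.Agent.CY.S5.Doms

/-!
Project CY, part S3a: the half space, its boundary, measurability of chart images.

PLAN. `bd`, `tl`: coordinates (`Fin.cases`).  `image_co`: `pt`/`co` are inverse to each other.
Measurability: `pt e` is continuous on the measurable set `dom e`, so `{y | y ∈ dom e ∧ pt e y ∈ A}` is
measurable (restrict to the subtype).  `mem_boundary_iff`: `ModelWithCorners.isBoundaryPoint_iff_of_mem_atlas`
(with smoothness 1 or ∞), the frontier of `(e.extend I).target` at `co e p ∈ dom e`, `dom e = O ∩ Hs n`.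
-/

set_option autoImplicit false
set_option linter.unusedSectionVars false

open scoped Manifold ContDiff ENNReal
open MeasureTheory Set Filter Topology

namespace Pool.Agent.CY

section base

variable {n : ℕ}

@[simp] theorem bd_zero (z : V n) : bd z 0 = 0 := by
  simp [bd, cons]

@[simp] theorem bd_succ (z : V n) (i : Fin n) : bd z i.succ = z i := by
  simp [bd, cons]

@[simp] theorem tl_bd (z : V n) : tl (bd z) = z := by
  ext i
  simp [tl]

theorem bd_tl {y : V (n + 1)} (h : y 0 = 0) : bd (tl y) = y := by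
  ext i
  refine Fin.cases ?_ (fun i => ?_) i
  · rw [bd_zero, h]
  · rw [bd_succ]; rfl

theorem continuous_bd : Continuous (bd : V n → V (n + 1)) := by
  have h : Continuous fun z : V n => (Fin.cons 0 (fun i => z i) : Fin (n + 1) → ℝ) := by
    refine continuous_pi fun i => ?_
    refine Fin.cases ?_ (fun i => ?_) i
    · simpa using continuous_const
    · simp only [Fin.cons_succ]
      fun_prop
  exact (PiLp.continuous_toLp 2 _).comp h

theorem continuous_tl : Continuous (tl : V (n + 1) → V n) := by
  have h : Continuous fun y : V (n + 1) => (fun i => y i.succ : Fin n → ℝ) := by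
    fun_prop
  exact (PiLp.continuous_toLp 2 _).comp h

theorem bd_injective : Function.Injective (bd : V n → V (n + 1)) := by
  intro a b h
  rw [← tl_bd a, ← tl_bd b, h]

theorem bd_mem_Hs (z : V n) : bd z ∈ Hs n := by
  show 0 ≤ bd z 0
  rw [bd_zero]

theorem contDiff_bd : ContDiff ℝ ∞ (bd : V n → V (n + 1)) := by
  rw [contDiff_euclidean]
  intro i
  refine Fin.cases ?_ (fun i => ?_) i
  · simp only [bd_zero]
    exact contDiff_const
  · simp only [bd_succ]
    exact (EuclideanSpace.proj i : V n →L[ℝ] ℝ).contDiff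

theorem contDiff_tl : ContDiff ℝ ∞ (tl : V (n + 1) → V n) := by
  rw [contDiff_euclidean]
  intro i
  exact (EuclideanSpace.proj i.succ : V (n + 1) →L[ℝ] ℝ).contDiff

theorem isClosedEmbedding_bd : IsClosedEmbedding (bd : V n → V (n + 1)) := by
  exact Function.LeftInverse.isClosedEmbedding tl_bd continuous_tl continuous_bd

theorem measurableSet_Hs : MeasurableSet (Hs n) := isClosed_Hs.measurableSet

theorem measurableSet_Ho : MeasurableSet (Ho n) := isOpen_Ho.measurableSet

theorem volume_Hs_diff_Ho : volume (Hs n \ Ho n) = 0 := by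
  have h1 : Hs n \ Ho n ⊆
      ((LinearMap.ker (EuclideanSpace.proj 0 : V (n + 1) →L[ℝ] ℝ).toLinearMap : Submodule ℝ (V (n + 1))) :
        Set (V (n + 1))) := by
    rintro y ⟨h1, h2⟩
    have h1' : 0 ≤ y 0 := h1
    have h2' : ¬ 0 < y 0 := h2
    show y 0 = 0
    linarith
  refine measure_mono_null h1 (Measure.addHaar_submodule _ _ ?_)
  intro h
  have h3 : (EuclideanSpace.single 0 1 : V (n + 1)) ∈
      LinearMap.ker (EuclideanSpace.proj 0 : V (n + 1) →L[ℝ] ℝ).toLinearMap := by
    rw [h]; exact Submodule.mem_top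
  have h4 : (EuclideanSpace.single 0 1 : V (n + 1)) 0 = 0 := h3
  simp at h4

theorem restrict_Hs : (volume : Measure (V (n + 1))).restrict (Hs n) = volume.restrict (Ho n) := by
  refine Measure.restrict_congr_set ?_
  refine (ae_eq_set.2 ⟨volume_Hs_diff_Ho, ?_⟩)
  rw [diff_eq_empty.2 Ho_subset_Hs, measure_empty]

variable {X : Type} [TopologicalSpace X] [ChartedSpace (EuclideanHalfSpace (n + 1)) X]

theorem measurableSet_dom (e : OpenPartialHomeomorph X (EuclideanHalfSpace (n + 1))) :
    MeasurableSet (dom e) := by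
  obtain ⟨O, hO, h⟩ := dom_open e
  rw [h]
  exact hO.measurableSet.inter measurableSet_Hs

/-- The domain of the boundary chart. -/
def bdom (e : OpenPartialHomeomorph X (EuclideanHalfSpace (n + 1))) : Set (V n) := {z | bd z ∈ dom e}

theorem isOpen_bdom (e : OpenPartialHomeomorph X (EuclideanHalfSpace (n + 1))) : IsOpen (bdom e) := by
  obtain ⟨O, hO, h⟩ := dom_open e
  have h1 : bdom e = bd ⁻¹' O := by
    ext z
    simp only [bdom, h, mem_inter_iff, mem_preimage]
    exact ⟨fun h => h.1, fun h => ⟨h, bd_mem_Hs z⟩⟩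
  rw [h1]
  exact hO.preimage continuous_bd

theorem image_co (e : OpenPartialHomeomorph X (EuclideanHalfSpace (n + 1))) {A : Set X}
    (hA : A ⊆ e.source) : co e '' A = {y | y ∈ dom e ∧ pt e y ∈ A} := by
  ext y
  constructor
  · rintro ⟨p, hp, rfl⟩
    exact ⟨co_mem_dom e (hA hp), by rw [pt_co e (hA hp)]; exact hp⟩
  · rintro ⟨h1, h2⟩
    exact ⟨pt e y, h2, co_pt e h1⟩

theorem image_co_source (e : OpenPartialHomeomorph X (EuclideanHalfSpace (n + 1))) :
    co e '' e.source = dom e := by
  rw [image_co e subset_rfl]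
  ext y
  exact ⟨fun h => h.1, fun h => ⟨h, pt_mem_source e h⟩⟩

theorem bimage_co (e : OpenPartialHomeomorph X (EuclideanHalfSpace (n + 1))) {A : Set X}
    (hA : A ⊆ e.source) : {z : V n | bd z ∈ co e '' A} = {z | z ∈ bdom e ∧ pt e (bd z) ∈ A} := by
  rw [image_co e hA]
  rfl

theorem measurableSet_image_co [MeasurableSpace X] [BorelSpace X]
    (e : OpenPartialHomeomorph X (EuclideanHalfSpace (n + 1))) {A : Set X} (hA : A ⊆ e.source)
    (hm : MeasurableSet A) : MeasurableSet (co e '' A) := by
  rw [image_co e hA]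
  have h1 : {y | y ∈ dom e ∧ pt e y ∈ A} = Subtype.val '' ((dom e).restrict (pt e) ⁻¹' A) := by
    ext y
    constructor
    · rintro ⟨h1, h2⟩
      exact ⟨⟨y, h1⟩, h2, rfl⟩
    · rintro ⟨⟨y, h1⟩, h2, rfl⟩
      exact ⟨h1, h2⟩
  rw [h1]
  refine (measurableSet_dom e).subtype_image ?_
  exact (continuousOn_iff_continuous_restrict.1 (continuousOn_pt e)).measurable hm

theorem measurableSet_bimage [MeasurableSpace X] [BorelSpace X]
    (e : OpenPartialHomeomorph X (EuclideanHalfSpace (n + 1))) {A : Set X} (hA : A ⊆ e.source)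
    (hm : MeasurableSet A) : MeasurableSet {z : V n | bd z ∈ co e '' A} := by
  exact (measurableSet_image_co e hA hm).preimage continuous_bd.measurable

/-- The inverse of the chart on the subtype. -/
noncomputable def ptS (e : OpenPartialHomeomorph X (EuclideanHalfSpace (n + 1))) (y : dom e) : X := pt e y

/-- The inverse of the boundary chart on the subtype. -/
noncomputable def ptB (e : OpenPartialHomeomorph X (EuclideanHalfSpace (n + 1))) (z : bdom e) : X := pt e (bd z)

theorem measurableEmbedding_ptS [MeasurableSpace X] [BorelSpace X]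
    (e : OpenPartialHomeomorph X (EuclideanHalfSpace (n + 1))) : MeasurableEmbedding (ptS e) := by
  refine ⟨?_, ?_, ?_⟩
  · intro y y' h
    have h1 : pt e y = pt e y' := h
    have h2 := congrArg (co e) h1
    rw [co_pt e y.2, co_pt e y'.2] at h2
    exact Subtype.ext h2
  · exact (continuousOn_iff_continuous_restrict.1 (continuousOn_pt e)).measurable
  · intro s hs
    have h1 : ptS e '' s = Subtype.val '' ((e.source.restrict (co e)) ⁻¹' (Subtype.val '' s)) := by
      ext p
      constructor
      · rintro ⟨y, hy, rfl⟩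
        refine ⟨⟨pt e y, pt_mem_source e y.2⟩, ⟨y, hy, ?_⟩, rfl⟩
        exact (co_pt e y.2).symm
      · rintro ⟨⟨p, hp⟩, ⟨y, hy, h⟩, rfl⟩
        refine ⟨y, hy, ?_⟩
        have h2 : (y : V (n + 1)) = co e p := h
        show pt e y = p
        rw [h2, pt_co e hp]
    rw [h1]
    refine e.open_source.measurableSet.subtype_image ?_
    exact (continuousOn_iff_continuous_restrict.1 (continuousOn_co e)).measurable
      ((measurableSet_dom e).subtype_image hs)

theorem measurableEmbedding_ptB [MeasurableSpace X] [BorelSpace X]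
    (e : OpenPartialHomeomorph X (EuclideanHalfSpace (n + 1))) : MeasurableEmbedding (ptB e) := by
  have h0 : MeasurableEmbedding (fun z : bdom e => (⟨bd z, z.2⟩ : dom e)) := by
    refine ⟨?_, ?_, ?_⟩
    · intro z z' h
      exact Subtype.ext (bd_injective (congrArg Subtype.val h))
    · exact ((continuous_bd.comp continuous_subtype_val).subtype_mk _).measurable
    · intro s hs
      have h1 : (fun z : bdom e => (⟨bd z, z.2⟩ : dom e)) '' s =
          Subtype.val ⁻¹' (bd '' (Subtype.val '' s)) := by
        ext y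
        constructor
        · rintro ⟨z, hz, rfl⟩
          exact ⟨z, ⟨z, hz, rfl⟩, rfl⟩
        · rintro ⟨z, ⟨z', hz', rfl⟩, h⟩
          exact ⟨z', hz', Subtype.ext h⟩
      rw [h1]
      refine measurable_subtype_coe ?_
      exact isClosedEmbedding_bd.measurableEmbedding.measurableSet_image.2
        ((isOpen_bdom e).measurableSet.subtype_image hs)
  exact (measurableEmbedding_ptS e).comp h0

variable [IsManifold (𝓡∂ (n + 1)) ∞ X]

theorem mem_boundary_iff {e : OpenPartialHomeomorph X (EuclideanHalfSpace (n + 1))}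
    (he : e ∈ atlas (EuclideanHalfSpace (n + 1)) X) {p : X} (hp : p ∈ e.source) :
    p ∈ (𝓡∂ (n + 1)).boundary X ↔ co e p 0 = 0 := by
  have h1 : p ∈ (𝓡∂ (n + 1)).boundary X ↔ (𝓡∂ (n + 1)).IsBoundaryPoint p := Iff.rfl
  have hI : (∞ : WithTop ℕ∞) ≠ 0 := by simp
  rw [h1, (𝓡∂ (n + 1)).isBoundaryPoint_iff_of_mem_atlas hI he hp]
  have h2 : (e.extend (𝓡∂ (n + 1))).target = dom e := by
    rw [OpenPartialHomeomorph.extend_target, ← Hs_eq_range]
    ext y
    constructor
    · rintro ⟨h1, h2⟩
      rw [mem_preimage, model_symm_apply h2] at h1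
      exact (mem_dom_iff e h2).2 h1
    · intro h
      have h2 := dom_subset e h
      refine ⟨?_, h2⟩
      rw [mem_preimage, model_symm_apply h2]
      exact (mem_dom_iff e h2).1 h
  have h3 : e.extend (𝓡∂ (n + 1)) p = co e p := rfl
  rw [h2, h3]
  have h4 : co e p ∈ dom e := co_mem_dom e hp
  have h5 : co e p ∈ frontier (dom e) ↔ co e p ∉ interior (dom e) := by
    rw [frontier, mem_diff]
    exact ⟨fun h => h.2, fun h => ⟨subset_closure h4, h⟩⟩
  have h6 : co e p ∈ interior (dom e) ↔ 0 < co e p 0 := by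
    obtain ⟨O, hO, h⟩ := dom_open e
    constructor
    · intro h7
      have h8 : co e p ∈ interior (Hs n) := interior_mono (dom_subset e) h7
      rw [Hs_eq_range, interior_range_modelWithCornersEuclideanHalfSpace] at h8
      exact h8
    · intro h7
      have h8 : O ∩ Ho n ⊆ dom e := by
        rw [h]
        exact inter_subset_inter_right _ Ho_subset_Hs
      have h9 : co e p ∈ O := by
        rw [h] at h4
        exact h4.1
      exact interior_maximal h8 (hO.inter isOpen_Ho) ⟨h9, h7⟩
  rw [h5, h6, not_lt]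
  exact ⟨fun h => le_antisymm h (co_mem_Hs e p), fun h => h.le⟩

theorem pt_bd_mem_boundary {e : OpenPartialHomeomorph X (EuclideanHalfSpace (n + 1))}
    (he : e ∈ atlas (EuclideanHalfSpace (n + 1)) X) {z : V n} (hz : z ∈ bdom e) :
    pt e (bd z) ∈ (𝓡∂ (n + 1)).boundary X := by
  rw [mem_boundary_iff he (pt_mem_source e hz), co_pt e hz, bd_zero]

theorem tr_bd {e e' : OpenPartialHomeomorph X (EuclideanHalfSpace (n + 1))}
    (he : e ∈ atlas (EuclideanHalfSpace (n + 1)) X) (he' : e' ∈ atlas (EuclideanHalfSpace (n + 1)) X)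
    {z : V n} (hz : bd z ∈ dom2 e e') : bd (tl (tr e e' (bd z))) = tr e e' (bd z) := by
  have h1 : pt e (bd z) ∈ (𝓡∂ (n + 1)).boundary X := pt_bd_mem_boundary he hz.1
  rw [mem_boundary_iff he' hz.2] at h1
  exact bd_tl h1

theorem isClosed_boundary : IsClosed ((𝓡∂ (n + 1)).boundary X) := by
  have hI : (∞ : WithTop ℕ∞) ≠ 0 := by simp
  exact (𝓡∂ (n + 1)).isClosed_boundary hI

end base

end Pool.Agent.CY
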