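import Pool.Agent.CY.S3.Loc

/-!
Project CY, part S3a: change of variables between two charts.

PLAN. `lintegral_image_eq_lintegral_abs_det_fderiv_mul` on `s = co e '' A` with `f = tr e e'` (injective on
`dom2 e e'` by `tr_tr`, image `co e' '' A`), derivative `fderivWithin ℝ (tr e e') (Hs n) y` (its matrix in the
standard basis is `jac e e' y`, so its determinant is `(jac e e' y).det`), `Metric.sqrt_det_compat`,
`ENNReal.ofReal_mul`.  Boundary: `s = {z | bd z ∈ co e '' A}`, `f z = tl (tr e e' (bd z))`.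
-/

set_option autoImplicit false
set_option linter.unusedSectionVars false

open scoped Manifold ContDiff ENNReal
open MeasureTheory Set Filter Topology

namespace Pool.Agent.CY

section compat

variable {n : ℕ} {X : Type} [TopologicalSpace X] [ChartedSpace (EuclideanHalfSpace (n + 1)) X]
  [IsManifold (𝓡∂ (n + 1)) ∞ X] [MeasurableSpace X] [BorelSpace X]

private theorem tr_diffAt {e e' : OpenPartialHomeomorph X (EuclideanHalfSpace (n + 1))}
    (he : e ∈ atlas (EuclideanHalfSpace (n + 1)) X) (he' : e' ∈ atlas (EuclideanHalfSpace (n + 1)) X)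
    {y : V (n + 1)} (hy : y ∈ dom2 e e') :
    HasFDerivWithinAt (tr e e') (fderivWithin ℝ (tr e e') (Hs n) y) (Hs n) y := by
  have h1 : DifferentiableOn ℝ (tr e e') (dom2 e e') :=
    (contDiffOn_tr_vec he he').differentiableOn (by simp)
  exact ((h1 y hy).mono_of_mem_nhdsWithin ((dom_chart2 e e').nhds y hy)).hasFDerivWithinAt

private theorem pd_tr {e e' : OpenPartialHomeomorph X (EuclideanHalfSpace (n + 1))}
    (he : e ∈ atlas (EuclideanHalfSpace (n + 1)) X) (he' : e' ∈ atlas (EuclideanHalfSpace (n + 1)) X)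
    {y : V (n + 1)} (hy : y ∈ dom2 e e') (i k : Fin (n + 1)) :
    pd (Hs n) i (fun z => tr e e' z k) y =
      (fderivWithin ℝ (tr e e') (Hs n) y (EuclideanSpace.single i 1)) k := by
  have h1 := tr_diffAt he he' hy
  have h2 : HasFDerivWithinAt (fun z => tr e e' z k)
      ((EuclideanSpace.proj k : V (n + 1) →L[ℝ] ℝ).comp (fderivWithin ℝ (tr e e') (Hs n) y)) (Hs n) y :=
    (EuclideanSpace.proj k : V (n + 1) →L[ℝ] ℝ).hasFDerivAt.comp_hasFDerivWithinAt y h1
  rw [pd, h2.fderivWithin (uniqueDiffOn_Hs y (dom_subset e hy.1))]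
  rfl

/-- determinant of a continuous linear map of `V m` by its matrix -/
private theorem det_clm {m : ℕ} (L : V m →L[ℝ] V m) :
    L.det = (Matrix.of fun k i => (L (EuclideanSpace.single i 1)) k).det := by
  rw [ContinuousLinearMap.det, ← LinearMap.det_toMatrix (EuclideanSpace.basisFun (Fin m) ℝ).toBasis]
  congr 1

/-- `tl` as a continuous linear map -/
private noncomputable def tlL (n : ℕ) : V (n + 1) →L[ℝ] V n :=
  LinearMap.toContinuousLinearMap
    { toFun := tl
      map_add' := by
        intro x y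
        ext i
        simp [tl]
      map_smul' := by
        intro c x
        ext i
        simp [tl] }

private theorem tlL_apply (y : V (n + 1)) : tlL n y = tl y := rfl

theorem vol_compat (g : Metric n X) {e e' : OpenPartialHomeomorph X (EuclideanHalfSpace (n + 1))}
    (he : e ∈ atlas (EuclideanHalfSpace (n + 1)) X) (he' : e' ∈ atlas (EuclideanHalfSpace (n + 1)) X)
    {A : Set X} (hA : A ⊆ e.source) (hA' : A ⊆ e'.source) (hm : MeasurableSet A) :
    ∫⁻ y in co e '' A, ENNReal.ofReal (Real.sqrt (g.G e y).det) =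
      ∫⁻ y in co e' '' A, ENNReal.ofReal (Real.sqrt (g.G e' y).det) := by
  have hs := measurableSet_image_co e hA hm
  have hsub : ∀ y ∈ co e '' A, y ∈ dom2 e e' := by
    rintro _ ⟨p, hp, rfl⟩
    refine ⟨co_mem_dom e (hA hp), ?_⟩
    rw [pt_co e (hA hp)]
    exact hA' hp
  have him : tr e e' '' (co e '' A) = co e' '' A := by
    ext y
    constructor
    · rintro ⟨_, ⟨p, hp, rfl⟩, rfl⟩
      refine ⟨p, hp, ?_⟩
      rw [tr, pt_co e (hA hp)]
    · rintro ⟨p, hp, rfl⟩
      refine ⟨_, ⟨p, hp, rfl⟩, ?_⟩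
      rw [tr, pt_co e (hA hp)]
  have hinj : InjOn (tr e e') (co e '' A) := by
    intro y hy y' hy' h
    rw [← tr_tr e e' (hsub y hy), ← tr_tr e e' (hsub y' hy'), h]
  have hd : ∀ y ∈ co e '' A, HasFDerivWithinAt (tr e e') (fderivWithin ℝ (tr e e') (Hs n) y)
      (co e '' A) y := fun y hy =>
    (tr_diffAt he he' (hsub y hy)).mono fun z hz => dom_subset e (hsub z hz).1
  rw [← him, lintegral_image_eq_lintegral_abs_det_fderiv_mul volume hs hd hinj]
  refine setLIntegral_congr_fun hs fun y hy => ?_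
  have h1 : (fderivWithin ℝ (tr e e') (Hs n) y).det = (jac e e' y).det := by
    rw [det_clm]
    congr 1
    ext k i
    rw [Matrix.of_apply, jac, Matrix.of_apply, pd_tr he he' (hsub y hy)]
  simp only [h1]
  rw [← ENNReal.ofReal_mul (abs_nonneg _), g.sqrt_det_compat he he' (hsub y hy)]

theorem bvol_compat (g : Metric n X) {e e' : OpenPartialHomeomorph X (EuclideanHalfSpace (n + 1))}
    (he : e ∈ atlas (EuclideanHalfSpace (n + 1)) X) (he' : e' ∈ atlas (EuclideanHalfSpace (n + 1)) X)
    {A : Set X} (hA : A ⊆ e.source) (hA' : A ⊆ e'.source) (hm : MeasurableSet A) :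
    ∫⁻ z in {z : V n | bd z ∈ co e '' A}, ENNReal.ofReal (Real.sqrt (tang (g.G e) z).det) =
      ∫⁻ z in {z : V n | bd z ∈ co e' '' A}, ENNReal.ofReal (Real.sqrt (tang (g.G e') z).det) := by
  have hs := measurableSet_bimage e hA hm
  have hsub : ∀ y ∈ co e '' A, y ∈ dom2 e e' := by
    rintro _ ⟨p, hp, rfl⟩
    refine ⟨co_mem_dom e (hA hp), ?_⟩
    rw [pt_co e (hA hp)]
    exact hA' hp
  have him : (fun z => tl (tr e e' (bd z))) '' {z : V n | bd z ∈ co e '' A} =
      {z : V n | bd z ∈ co e' '' A} := by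
    ext w
    constructor
    · rintro ⟨z, hz, rfl⟩
      obtain ⟨p, hp, hz'⟩ := hz
      refine ⟨p, hp, ?_⟩
      have h2 : bd z ∈ dom2 e e' := hsub _ ⟨p, hp, hz'⟩
      rw [tr_bd he he' h2, ← hz', tr, pt_co e (hA hp)]
    · rintro ⟨p, hp, hw⟩
      have h1 : co e' p 0 = 0 := by rw [hw, bd_zero]
      have h2 : co e p 0 = 0 := by
        rw [← mem_boundary_iff he (hA hp), mem_boundary_iff he' (hA' hp)]
        exact h1
      refine ⟨tl (co e p), ⟨p, hp, (bd_tl h2).symm⟩, ?_⟩
      simp only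
      rw [bd_tl h2, tr, pt_co e (hA hp), hw, tl_bd]
  have hinj : InjOn (fun z => tl (tr e e' (bd z))) {z : V n | bd z ∈ co e '' A} := by
    intro z hz w hw h
    have h1 : tr e e' (bd z) = tr e e' (bd w) := by
      rw [← tr_bd he he' (hsub _ hz), ← tr_bd he he' (hsub _ hw)]
      exact congrArg bd h
    apply bd_injective
    rw [← tr_tr e e' (hsub _ hz), ← tr_tr e e' (hsub _ hw), h1]
  have hd : ∀ z ∈ {z : V n | bd z ∈ co e '' A}, HasFDerivWithinAt (fun z => tl (tr e e' (bd z)))
      ((tlL n).comp ((fderivWithin ℝ (tr e e') (Hs n) (bd z)).comp (bdL n)))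
      {z : V n | bd z ∈ co e '' A} z := by
    intro z hz
    have h1 := tr_diffAt he he' (hsub _ hz)
    have h2 : HasFDerivWithinAt (bd : V n → V (n + 1)) (bdL n) {z : V n | bd z ∈ co e '' A} z :=
      (bdL n).hasFDerivAt.hasFDerivWithinAt
    have h3 := h1.comp z h2 (fun w _ => bd_mem_Hs w)
    exact (tlL n).hasFDerivAt.comp_hasFDerivWithinAt z h3
  rw [← him, lintegral_image_eq_lintegral_abs_det_fderiv_mul volume hs hd hinj]
  refine setLIntegral_congr_fun hs fun z hz => ?_
  have h1 : ((tlL n).comp ((fderivWithin ℝ (tr e e') (Hs n) (bd z)).comp (bdL n))).det =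
      (bjac e e' z).det := by
    rw [det_clm]
    congr 1
    ext k i
    rw [Matrix.of_apply, bjac, Matrix.of_apply, pd_tr he he' (hsub _ hz)]
    simp only [ContinuousLinearMap.comp_apply, bdL_single]
    rfl
  simp only [h1]
  rw [← ENNReal.ofReal_mul (abs_nonneg _), g.sqrt_tang_compat he he' (hsub _ hz)]

end compat

end Pool.Agent.CY
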