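import Pool.Agent.CY.S3.IntChart

/-!
Project CY, part S3a: volume measures of conformal metrics.

PLAN. `vol_unique`: for `A ⊆ e.source` measurable, `(vol g).withDensity F A = ∫⁻ p in A, F p ∂(vol g)`, by
`IsVol.restrict_source` this is `∫⁻ y in co e '' A, F (pt e y) * ofReal (sqrt (det G))`, and
`det (u² G) = u^(2(n+1)) det G` (`Matrix.det_smul`).
-/

set_option autoImplicit false
set_option linter.unusedSectionVars false

open scoped Manifold ContDiff ENNReal
open MeasureTheory Set Filter Topology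

namespace Pool.Agent.CY

section confVol

variable {n : ℕ} {X : Type} [TopologicalSpace X] [ChartedSpace (EuclideanHalfSpace (n + 1)) X]
  [IsManifold (𝓡∂ (n + 1)) ∞ X] [CompactSpace X] [T2Space X] [MeasurableSpace X] [BorelSpace X]

omit [IsManifold (𝓡∂ (n + 1)) ∞ X] [CompactSpace X] [T2Space X] [MeasurableSpace X] [BorelSpace X] in
theorem rhoS_conf {g h : Metric n X} {u : X → ℝ} (hu : ∀ p, 0 < u p) (hh : IsConf u g h)
    {e : OpenPartialHomeomorph X (EuclideanHalfSpace (n + 1))}
    (he : e ∈ atlas (EuclideanHalfSpace (n + 1)) X) {y : V (n + 1)} (hy : y ∈ dom e) :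
    rhoS h e y = rhoS g e y * u (pt e y) ^ (n + 1) := by
  have h0 : (0 : ℝ) ≤ u (pt e y) ^ (n + 1) := pow_nonneg (hu _).le _
  rw [rhoS, rhoS, hh e he y hy, Matrix.det_smul, Fintype.card_fin, ← pow_mul, mul_comm 2 (n + 1),
    pow_mul, Real.sqrt_mul (sq_nonneg _), Real.sqrt_sq h0, mul_comm]

omit [IsManifold (𝓡∂ (n + 1)) ∞ X] [CompactSpace X] [T2Space X] [MeasurableSpace X] [BorelSpace X] in
theorem rhoB_conf {g h : Metric n X} {u : X → ℝ} (hu : ∀ p, 0 < u p) (hh : IsConf u g h)
    {e : OpenPartialHomeomorph X (EuclideanHalfSpace (n + 1))}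
    (he : e ∈ atlas (EuclideanHalfSpace (n + 1)) X) {z : V n} (hz : z ∈ bdom e) :
    rhoB h e z = rhoB g e z * u (pt e (bd z)) ^ n := by
  have h0 : (0 : ℝ) ≤ u (pt e (bd z)) ^ n := pow_nonneg (hu _).le _
  have h1 : tang (h.G e) z = u (pt e (bd z)) ^ 2 • tang (g.G e) z := by
    ext a b
    have h2 := congrFun (congrFun (hh e he (bd z) hz) a.succ) b.succ
    exact h2
  rw [rhoB, rhoB, h1, Matrix.det_smul, Fintype.card_fin, ← pow_mul, mul_comm 2 n,
    pow_mul, Real.sqrt_mul (sq_nonneg _), Real.sqrt_sq h0, mul_comm]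

theorem vol_conf {g h : Metric n X} {u : X → ℝ} (hc : Continuous u) (hu : ∀ p, 0 < u p)
    (hh : IsConf u g h) : vol h = (vol g).withDensity fun p => ENNReal.ofReal (u p ^ (n + 1)) := by
  have hFm : Measurable fun p => ENNReal.ofReal (u p ^ (n + 1)) :=
    (hc.pow (n + 1)).measurable.ennreal_ofReal
  refine vol_unique h _ _ (vol_spec h) ?_
  intro e he A hA hm
  have h1 : ((vol g).withDensity fun p => ENNReal.ofReal (u p ^ (n + 1))) A =
      ∫⁻ p in e.source, A.indicator (fun p => ENNReal.ofReal (u p ^ (n + 1))) p ∂(vol g) := by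
    rw [withDensity_apply _ hm, setLIntegral_indicator hm, inter_eq_left.2 hA]
  rw [h1, lint_vol_source g he _ (hFm.indicator hm)]
  have h2 : ∫⁻ y in co e '' A, ENNReal.ofReal (Real.sqrt (h.G e y).det) =
      ∫⁻ y in dom e, (co e '' A).indicator (fun y => ENNReal.ofReal (rhoS h e y)) y := by
    rw [setLIntegral_indicator (measurableSet_image_co e hA hm), inter_eq_left.2 (by
      rw [← image_co_source]; exact image_mono hA)]
    rfl
  rw [h2]
  refine setLIntegral_congr_fun (measurableSet_dom e) fun y hy => ?_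
  by_cases hyA : pt e y ∈ A
  · have h3 : y ∈ co e '' A := by rw [image_co e hA]; exact ⟨hy, hyA⟩
    rw [indicator_of_mem hyA, indicator_of_mem h3, rhoS_conf hu hh he hy,
      ENNReal.ofReal_mul (rhoS_pos g he hy).le]
  · have h3 : y ∉ co e '' A := by
      rw [image_co e hA]
      exact fun h => hyA h.2
    rw [indicator_of_notMem hyA, indicator_of_notMem h3, mul_zero]

theorem bvol_conf {g h : Metric n X} {u : X → ℝ} (hc : Continuous u) (hu : ∀ p, 0 < u p)
    (hh : IsConf u g h) : bvol h = (bvol g).withDensity fun p => ENNReal.ofReal (u p ^ n) := by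
  have hFm : Measurable fun p => ENNReal.ofReal (u p ^ n) :=
    (hc.pow n).measurable.ennreal_ofReal
  refine bvol_unique h _ _ (bvol_spec h) ⟨?_, ?_⟩
  · exact withDensity_absolutelyContinuous _ _ (bvol_compl_boundary g)
  intro e he A hA hm
  have h1 : ((bvol g).withDensity fun p => ENNReal.ofReal (u p ^ n)) A =
      ∫⁻ p in e.source, A.indicator (fun p => ENNReal.ofReal (u p ^ n)) p ∂(bvol g) := by
    rw [withDensity_apply _ hm, setLIntegral_indicator hm, inter_eq_left.2 hA]
  rw [h1, lint_bvol_source g he _ (hFm.indicator hm)]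
  have h2 : ∫⁻ z in {z : V n | bd z ∈ co e '' A}, ENNReal.ofReal (Real.sqrt (tang (h.G e) z).det) =
      ∫⁻ z in bdom e, {z : V n | bd z ∈ co e '' A}.indicator (fun z => ENNReal.ofReal (rhoB h e z)) z := by
    rw [setLIntegral_indicator (measurableSet_bimage e hA hm), inter_eq_left.2 (by
      intro z hz
      show bd z ∈ dom e
      rw [← image_co_source]
      exact image_mono hA hz)]
    rfl
  rw [h2]
  refine setLIntegral_congr_fun (isOpen_bdom e).measurableSet fun z hz => ?_
  by_cases hyA : pt e (bd z) ∈ A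
  · have h3 : z ∈ {z : V n | bd z ∈ co e '' A} := by rw [bimage_co e hA]; exact ⟨hz, hyA⟩
    rw [indicator_of_mem hyA, indicator_of_mem h3, rhoB_conf hu hh he hz,
      ENNReal.ofReal_mul (rhoB_pos g he hz).le]
  · have h3 : z ∉ {z : V n | bd z ∈ co e '' A} := by
      rw [bimage_co e hA]
      exact fun h => hyA h.2
    rw [indicator_of_notMem hyA, indicator_of_notMem h3, mul_zero]

theorem int_vol_conf {g h : Metric n X} {u : X → ℝ} (hc : Continuous u) (hu : ∀ p, 0 < u p)
    (hh : IsConf u g h) (Ψ : X → ℝ) : ∫ p, Ψ p ∂(vol h) = ∫ p, Ψ p * u p ^ (n + 1) ∂(vol g) := by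
  have hm : Measurable fun p => ENNReal.ofReal (u p ^ (n + 1)) :=
    (hc.pow (n + 1)).measurable.ennreal_ofReal
  rw [vol_conf hc hu hh, integral_withDensity_eq_integral_toReal_smul hm
    (Filter.Eventually.of_forall fun _ => ENNReal.ofReal_lt_top)]
  refine integral_congr_ae (Filter.Eventually.of_forall fun p => ?_)
  simp only [smul_eq_mul]
  rw [ENNReal.toReal_ofReal (pow_nonneg (hu p).le _), mul_comm]

theorem int_bvol_conf {g h : Metric n X} {u : X → ℝ} (hc : Continuous u) (hu : ∀ p, 0 < u p)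
    (hh : IsConf u g h) (Ψ : X → ℝ) : ∫ p, Ψ p ∂(bvol h) = ∫ p, Ψ p * u p ^ n ∂(bvol g) := by
  have hm : Measurable fun p => ENNReal.ofReal (u p ^ n) :=
    (hc.pow n).measurable.ennreal_ofReal
  rw [bvol_conf hc hu hh, integral_withDensity_eq_integral_toReal_smul hm
    (Filter.Eventually.of_forall fun _ => ENNReal.ofReal_lt_top)]
  refine integral_congr_ae (Filter.Eventually.of_forall fun p => ?_)
  simp only [smul_eq_mul]
  rw [ENNReal.toReal_ofReal (pow_nonneg (hu p).le _), mul_comm]

end confVol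

end Pool.Agent.CY
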