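import Mathlib

/-!
Project CY, part S3a: continuous square roots of positive definite matrices (pure Mathlib).

PLAN. Either Cholesky by induction on `m` (`A = [[a, bᵀ], [b, C]]`, `L = [[√a, 0], [b/√a, Φ (C - b bᵀ / a)]]`,
Schur complement positive definite), or the positive square root (`CFC.sqrt`) and continuity of the continuous
functional calculus in the operator (`Mathlib/Analysis/CStarAlgebra/ContinuousFunctionalCalculus/Continuity`),
or compactness (`A_k → A`, limit points of `√A_k` are positive square roots of `A`, uniqueness).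
-/

set_option autoImplicit false

open Matrix

namespace Pool.Agent.CY

/-- Schur complement of the entry `0 0`. -/
private noncomputable def schur {m : ℕ} (A : Matrix (Fin (m + 1)) (Fin (m + 1)) ℝ) :
    Matrix (Fin m) (Fin m) ℝ :=
  fun i j => A i.succ j.succ - A i.succ 0 * A j.succ 0 / A 0 0

/-- one Cholesky step -/
private noncomputable def step {m : ℕ} (Φ : Matrix (Fin m) (Fin m) ℝ → Matrix (Fin m) (Fin m) ℝ)
    (A : Matrix (Fin (m + 1)) (Fin (m + 1)) ℝ) : Matrix (Fin (m + 1)) (Fin (m + 1)) ℝ :=
  fun i j => Fin.cases (Fin.cases (Real.sqrt (A 0 0)) (fun _ => 0) j)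
    (fun i' => Fin.cases (A i'.succ 0 / Real.sqrt (A 0 0)) (fun j' => Φ (schur A) i' j') j) i

private theorem pos00 {m : ℕ} {A : Matrix (Fin (m + 1)) (Fin (m + 1)) ℝ} (hA : A.PosDef) :
    0 < A 0 0 := hA.diag_pos

private theorem symm' {m : ℕ} {A : Matrix (Fin m) (Fin m) ℝ} (hA : A.PosDef)
    (i j : Fin m) : A i j = A j i := by
  have h := hA.1.apply i j
  simpa using h.symm

private theorem schur_posDef {m : ℕ} {A : Matrix (Fin (m + 1)) (Fin (m + 1)) ℝ} (hA : A.PosDef) :
    (schur A).PosDef := by
  have h0 := pos00 hA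
  refine PosDef.of_dotProduct_mulVec_pos ?_ ?_
  · ext i j
    simp only [conjTranspose_apply, schur, star_trivial]
    rw [symm' hA j.succ i.succ]
    ring
  · intro x hx
    let s : ℝ := ∑ i, A i.succ 0 * x i
    let y : Fin (m + 1) → ℝ := Fin.cons (-(s / A 0 0)) x
    have hy : y ≠ 0 := by
      intro h
      apply hx
      funext i
      have := congrFun h i.succ
      simpa [y] using this
    have hp := hA.dotProduct_mulVec_pos hy
    have e : star y ⬝ᵥ (A *ᵥ y) = star x ⬝ᵥ (schur A *ᵥ x) := by
      have e1 : ∀ i : Fin m, (A *ᵥ y) i.succ = A i.succ 0 * (-(s / A 0 0)) + ∑ j, A i.succ j.succ * x j := by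
        intro i
        simp [mulVec, dotProduct, Fin.sum_univ_succ, y]
      have e0 : (A *ᵥ y) 0 = 0 := by
        have : ∀ j : Fin m, A 0 j.succ = A j.succ 0 := fun j => symm' hA _ _
        simp only [mulVec, dotProduct, Fin.sum_univ_succ, y, Fin.cons_zero, Fin.cons_succ, this]
        change A 0 0 * (-(s / A 0 0)) + s = 0
        field_simp
        ring
      have e2 : ∀ i : Fin m, (schur A *ᵥ x) i = ∑ j, A i.succ j.succ * x j - A i.succ 0 * (s / A 0 0) := by
        intro i
        simp only [mulVec, dotProduct, schur, sub_mul, Finset.sum_sub_distrib]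
        congr 1
        simp only [s, Finset.sum_div, Finset.mul_sum]
        refine Finset.sum_congr rfl fun j _ => ?_
        ring
      have lhs : star y ⬝ᵥ (A *ᵥ y) = y 0 * (A *ᵥ y) 0 + ∑ i : Fin m, x i * (A *ᵥ y) i.succ := by
        simp [dotProduct, Fin.sum_univ_succ, y]
      rw [lhs, e0, mul_zero, zero_add]
      have rhs : star x ⬝ᵥ (schur A *ᵥ x) = ∑ i : Fin m, x i * (schur A *ᵥ x) i := by
        simp [dotProduct]
      rw [rhs]
      refine Finset.sum_congr rfl fun i _ => ?_
      rw [e1, e2]
      ring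
    rw [← e]
    exact hp

private theorem step_mul {m : ℕ} {Φ : Matrix (Fin m) (Fin m) ℝ → Matrix (Fin m) (Fin m) ℝ}
    (hΦ : ∀ A : Matrix (Fin m) (Fin m) ℝ, A.PosDef → Φ A * (Φ A).transpose = A)
    {A : Matrix (Fin (m + 1)) (Fin (m + 1)) ℝ} (hA : A.PosDef) :
    step Φ A * (step Φ A).transpose = A := by
  have h0 := pos00 hA
  have hs : Real.sqrt (A 0 0) * Real.sqrt (A 0 0) = A 0 0 := Real.mul_self_sqrt h0.le
  have hs0 : Real.sqrt (A 0 0) ≠ 0 := (Real.sqrt_pos.2 h0).ne'
  have hS := hΦ _ (schur_posDef hA)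
  ext i j
  rw [mul_apply, Fin.sum_univ_succ]
  simp only [transpose_apply]
  refine Fin.cases ?_ (fun i' => ?_) i
  · refine Fin.cases ?_ (fun j' => ?_) j
    · simp [step, hs]
    · simp only [step, Fin.cases_zero, Fin.cases_succ]
      simp only [zero_mul, Finset.sum_const_zero, add_zero]
      rw [symm' hA 0 j'.succ]
      field_simp
  · refine Fin.cases ?_ (fun j' => ?_) j
    · simp only [step, Fin.cases_zero, Fin.cases_succ]
      simp only [mul_zero, Finset.sum_const_zero, add_zero]
      field_simp
    · simp only [step, Fin.cases_zero, Fin.cases_succ]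
      have h1 := congrFun (congrFun hS i') j'
      rw [mul_apply] at h1
      simp only [transpose_apply] at h1
      rw [h1]
      simp only [schur]
      have h2 : A i'.succ 0 / Real.sqrt (A 0 0) * (A j'.succ 0 / Real.sqrt (A 0 0)) =
          A i'.succ 0 * A j'.succ 0 / A 0 0 := by
        rw [div_mul_div_comm, hs]
      rw [h2]
      ring

private theorem step_cont {m : ℕ} {Φ : Matrix (Fin m) (Fin m) ℝ → Matrix (Fin m) (Fin m) ℝ}
    (hΦ : ContinuousOn Φ {A | A.PosDef}) :
    ContinuousOn (step Φ) {A | A.PosDef} := by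
  have hc : ∀ i j : Fin (m + 1), Continuous fun A : Matrix (Fin (m + 1)) (Fin (m + 1)) ℝ => A i j :=
    fun i j => (continuous_apply j).comp (continuous_apply i)
  have hsch : ContinuousOn (schur (m := m)) {A | A.PosDef} := by
    refine continuousOn_pi.2 fun i => continuousOn_pi.2 fun j => ?_
    refine ((hc _ _).continuousOn).sub ?_
    refine ContinuousOn.div (((hc _ _).mul (hc _ _)).continuousOn) (hc _ _).continuousOn ?_
    intro A hA
    exact (pos00 hA).ne'
  have hcomp : ContinuousOn (fun A : Matrix (Fin (m + 1)) (Fin (m + 1)) ℝ => Φ (schur A))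
      {A | A.PosDef} := hΦ.comp hsch (fun A hA => schur_posDef hA)
  refine continuousOn_pi.2 fun i => continuousOn_pi.2 fun j => ?_
  refine Fin.cases ?_ (fun i' => ?_) i
  · refine Fin.cases ?_ (fun j' => ?_) j
    · simp only [step, Fin.cases_zero]
      exact (Real.continuous_sqrt.comp (hc 0 0)).continuousOn
    · simp only [step, Fin.cases_zero, Fin.cases_succ]
      exact continuousOn_const
  · refine Fin.cases ?_ (fun j' => ?_) j
    · simp only [step, Fin.cases_zero, Fin.cases_succ]
      refine ContinuousOn.div (hc _ _).continuousOn (Real.continuous_sqrt.comp (hc 0 0)).continuousOn ?_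
      intro A hA
      exact (Real.sqrt_pos.2 (pos00 hA)).ne'
    · simp only [step, Fin.cases_succ]
      exact ((continuous_apply j').comp (continuous_apply i')).comp_continuousOn hcomp

theorem exists_sqrt (m : ℕ) : ∃ Φ : Matrix (Fin m) (Fin m) ℝ → Matrix (Fin m) (Fin m) ℝ,
    ContinuousOn Φ {A | A.PosDef} ∧ ∀ A : Matrix (Fin m) (Fin m) ℝ, A.PosDef → Φ A * (Φ A).transpose = A := by
  induction m with
  | zero => exact ⟨id, continuousOn_id, fun A _ => Subsingleton.elim _ _⟩
  | succ m ih =>
    obtain ⟨Φ, h1, h2⟩ := ih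
    exact ⟨step Φ, step_cont h1, fun A hA => step_mul h2 hA⟩

end Pool.Agent.CY
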