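import Pool.Agent.CY.S3.Vol
import Pool.Agent.CY.S3.MatSqrt

/-!
Project CY, part S3a: existence of frames.

PLAN. `exists_qpu`: `SmoothPartitionOfUnity.exists_isSubordinate` for the finite cover by chart domains,
`η_i = χ_i / sqrt (∑ χ_j²)`.  `exists_frame`: `S i y = (Φ ((G (e i) y)⁻¹)).transpose`.
-/

set_option autoImplicit false
set_option linter.unusedSectionVars false

open scoped Manifold ContDiff ENNReal
open MeasureTheory Set Filter Topology

namespace Pool.Agent.CY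

section exFrame

variable {n : ℕ} {X : Type} [TopologicalSpace X] [ChartedSpace (EuclideanHalfSpace (n + 1)) X]
  [IsManifold (𝓡∂ (n + 1)) ∞ X] [CompactSpace X] [T2Space X]

/-- quadratic partition of unity subordinate to an open cover -/
theorem exists_qpu (N : ℕ) (U : Fin N → Set X) (ho : ∀ i, IsOpen (U i)) (hU : ⋃ i, U i = univ) :
    ∃ η : Fin N → X → ℝ, (∀ i, ContMDiff (𝓡∂ (n + 1)) 𝓘(ℝ) ∞ (η i)) ∧ (∀ i p, 0 ≤ η i p) ∧
      (∀ i, tsupport (η i) ⊆ U i) ∧ ∀ p, ∑ i, η i p ^ 2 = 1 := by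
  obtain ⟨f, hf⟩ := SmoothPartitionOfUnity.exists_isSubordinate (I := 𝓡∂ (n + 1)) (M := X)
    isClosed_univ U ho (by rw [hU])
  have hsum : ∀ p, ∑ i, f i p = 1 := by
    intro p
    have h1 := f.sum_eq_one (mem_univ p)
    rwa [finsum_eq_sum_of_fintype] at h1
  have hq : ∀ p, 0 < ∑ i, f i p ^ 2 := by
    intro p
    refine lt_of_le_of_ne (Finset.sum_nonneg fun i _ => sq_nonneg _) fun h => ?_
    have h1 : ∀ i ∈ Finset.univ, f i p ^ 2 = 0 :=
      (Finset.sum_eq_zero_iff_of_nonneg fun i _ => sq_nonneg _).1 h.symm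
    have h2 : ∑ i, f i p = 0 := Finset.sum_eq_zero fun i hi => by
      have := h1 i hi
      exact pow_eq_zero_iff (two_ne_zero) |>.1 this
    rw [hsum p] at h2
    exact one_ne_zero h2
  have hqs : ContMDiff (𝓡∂ (n + 1)) 𝓘(ℝ) ∞ fun p => ∑ i, f i p ^ 2 := by
    refine contMDiff_finsetSum fun i _ => ?_
    exact (f i).contMDiff.pow 2
  have hφ : ContMDiff (𝓡∂ (n + 1)) 𝓘(ℝ) ∞ fun p => (Real.sqrt (∑ i, f i p ^ 2))⁻¹ := by
    intro p
    have h1 : ContDiffAt ℝ ∞ (fun x : ℝ => (Real.sqrt x)⁻¹) (∑ i, f i p ^ 2) :=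
      (Real.contDiffAt_sqrt (hq p).ne').inv (Real.sqrt_pos.2 (hq p)).ne'
    exact ContMDiffAt.comp (g := fun x : ℝ => (Real.sqrt x)⁻¹) (f := fun p => ∑ i, f i p ^ 2) p
      h1.contMDiffAt (hqs p)
  refine ⟨fun i p => f i p * (Real.sqrt (∑ i, f i p ^ 2))⁻¹, fun i => (f i).contMDiff.mul hφ,
    fun i p => mul_nonneg (f.nonneg i p) (inv_nonneg.2 (Real.sqrt_nonneg _)), fun i => ?_, fun p => ?_⟩
  · exact (tsupport_mul_subset_left (f := fun p => f i p)).trans (hf i)
  · have h1 : ∀ i, (f i p * (Real.sqrt (∑ i, f i p ^ 2))⁻¹) ^ 2 =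
        f i p ^ 2 * (∑ i, f i p ^ 2)⁻¹ := by
      intro i
      rw [mul_pow, inv_pow, Real.sq_sqrt (hq p).le]
    simp only [h1]
    rw [← Finset.sum_mul, mul_inv_cancel₀ (hq p).ne']

theorem exists_frame (g : Metric n X) : Nonempty (Frame g) := by
  classical
  obtain ⟨s, hs, hcov⟩ := exists_finite_cover (n := n) (X := X)
  have hc : ⋃ i : Fin s.card, ((s.equivFin.symm i : s) : OpenPartialHomeomorph X
      (EuclideanHalfSpace (n + 1))).source = univ := by
    rw [eq_univ_iff_forall]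
    intro p
    have h1 : p ∈ ⋃ e ∈ s, e.source := by rw [hcov]; exact mem_univ p
    obtain ⟨e, he, hpe⟩ := mem_iUnion₂.1 h1
    refine mem_iUnion.2 ⟨s.equivFin ⟨e, he⟩, ?_⟩
    rw [Equiv.symm_apply_apply]
    exact hpe
  obtain ⟨η, h1, h2, h3, h4⟩ := exists_qpu (n := n) s.card
    (fun i => ((s.equivFin.symm i : s) : OpenPartialHomeomorph X (EuclideanHalfSpace (n + 1))).source)
    (fun i => (s.equivFin.symm i : OpenPartialHomeomorph X (EuclideanHalfSpace (n + 1))).open_source) hc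
  obtain ⟨Φ, hΦ, hΦ2⟩ := exists_sqrt (n + 1)
  have he : ∀ i : Fin s.card, ((s.equivFin.symm i : s) : OpenPartialHomeomorph X
      (EuclideanHalfSpace (n + 1))) ∈ atlas (EuclideanHalfSpace (n + 1)) X :=
    fun i => hs _ (s.equivFin.symm i).2
  refine ⟨⟨s.card, fun i => (s.equivFin.symm i : s), he, η, h1, h2, h3, h4,
    fun i y => (Φ ((g.G (s.equivFin.symm i : s) y)⁻¹)).transpose, ?_, ?_⟩⟩
  · intro i j k
    have h5 := hΦ.comp (g.continuousOn_inv (he i)) fun y hy => (g.posDef _ (he i) y hy).inv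
    exact (continuous_apply_apply k j).comp_continuousOn h5
  · intro i y hy
    rw [Matrix.transpose_transpose]
    exact hΦ2 _ (g.posDef _ (he i) y hy).inv

end exFrame

end Pool.Agent.CY
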