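import Pool.Agent.CY.S3.Vol

/-!
Project CY, part S3a: finiteness and positivity of the volume measures.

PLAN. Finiteness: a point `p` has a compact neighbourhood `K ⊆ e.source`, `e = ch p` (`X` is compact Hausdorff,
so locally compact), `co e '' K` is compact and the density is continuous on it, so bounded;
`bd ⁻¹' (co e '' K)` is compact (closed embedding).  Then compactness of `X`
(`IsCompact.measure_lt_top_of_nhdsWithin`).  `vol_boundary`: in a chart the boundary is contained in
`{y | y 0 = 0}` (`mem_boundary_iff`), which is null (`volume_Hs_diff_Ho`); finitely many charts cover.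
`bvol_ne`, `vol_open_pos`: the density is positive on a nonempty (relatively) open set of a chart; for `vol`:
a nonempty relatively open subset of `Hs n` contains a nonempty open set.
-/

set_option autoImplicit false
set_option linter.unusedSectionVars false

open scoped Manifold ContDiff ENNReal
open MeasureTheory Set Filter Topology

namespace Pool.Agent.CY

section fin

variable {n : ℕ} {X : Type} [TopologicalSpace X] [ChartedSpace (EuclideanHalfSpace (n + 1)) X]
  [IsManifold (𝓡∂ (n + 1)) ∞ X] [CompactSpace X] [T2Space X] [MeasurableSpace X] [BorelSpace X]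

omit [IsManifold (𝓡∂ (n + 1)) ∞ X] [CompactSpace X] [T2Space X] [MeasurableSpace X] [BorelSpace X] in
theorem continuousOn_rhoS (g : Metric n X) {e : OpenPartialHomeomorph X (EuclideanHalfSpace (n + 1))}
    (he : e ∈ atlas (EuclideanHalfSpace (n + 1)) X) : ContinuousOn (rhoS g e) (dom e) :=
  Real.continuous_sqrt.comp_continuousOn (g.continuousOn_det he)

omit [IsManifold (𝓡∂ (n + 1)) ∞ X] [CompactSpace X] [T2Space X] [MeasurableSpace X] [BorelSpace X] in
theorem continuousOn_rhoB (g : Metric n X) {e : OpenPartialHomeomorph X (EuclideanHalfSpace (n + 1))}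
    (he : e ∈ atlas (EuclideanHalfSpace (n + 1)) X) : ContinuousOn (rhoB g e) (bdom e) :=
  Real.continuous_sqrt.comp_continuousOn (g.continuousOn_tang_det he)

omit [IsManifold (𝓡∂ (n + 1)) ∞ X] [CompactSpace X] [T2Space X] [MeasurableSpace X] [BorelSpace X] in
theorem rhoS_pos (g : Metric n X) {e : OpenPartialHomeomorph X (EuclideanHalfSpace (n + 1))}
    (he : e ∈ atlas (EuclideanHalfSpace (n + 1)) X) {y : V (n + 1)} (hy : y ∈ dom e) : 0 < rhoS g e y :=
  Real.sqrt_pos.2 (g.det_pos he hy)

omit [IsManifold (𝓡∂ (n + 1)) ∞ X] [CompactSpace X] [T2Space X] [MeasurableSpace X] [BorelSpace X] in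
theorem rhoB_pos (g : Metric n X) {e : OpenPartialHomeomorph X (EuclideanHalfSpace (n + 1))}
    (he : e ∈ atlas (EuclideanHalfSpace (n + 1)) X) {z : V n} (hz : z ∈ bdom e) : 0 < rhoB g e z :=
  Real.sqrt_pos.2 (g.tang_det_pos he hz)

private theorem null_of_lintegral {m : ℕ} {S : Set (V m)} (hS : MeasurableSet S) {f : V m → ℝ}
    (hf : ContinuousOn f S) (h0 : ∀ y ∈ S, 0 < f y) (h : ∫⁻ y in S, ENNReal.ofReal (f y) = 0) :
    volume S = 0 := by
  have h1 : AEMeasurable (fun y => ENNReal.ofReal (f y)) (volume.restrict S) :=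
    (ENNReal.continuous_ofReal.comp_continuousOn hf).aemeasurable hS
  rw [lintegral_eq_zero_iff' h1] at h
  have h2 : ∀ᵐ y ∂(volume.restrict S), False := by
    filter_upwards [h, ae_restrict_mem hS] with y hy hyS
    have h3 : ENNReal.ofReal (f y) = 0 := hy
    rw [ENNReal.ofReal_eq_zero] at h3
    exact absurd (h0 y hyS) (not_lt.2 h3)
  have h3 : volume.restrict S = 0 := by
    rw [← ae_eq_bot]
    exact Filter.eventually_false_iff_eq_bot.1 h2
  exact Measure.restrict_eq_zero.1 h3

theorem vol_lt_top (g : Metric n X) : vol g univ < ⊤ := by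
  refine isCompact_univ.measure_lt_top_of_nhdsWithin fun p _ => ?_
  rw [nhdsWithin_univ]
  have he := chart_mem_atlas (EuclideanHalfSpace (n + 1)) p
  obtain ⟨K, hK, hKs, hKc⟩ := local_compact_nhds ((ch (n := n) p).open_source.mem_nhds
    (mem_chart_source (EuclideanHalfSpace (n + 1)) p))
  refine ⟨K, hK, ?_⟩
  rw [vol_spec g _ he K hKs hKc.isClosed.measurableSet]
  have h1 : IsCompact (co (ch (n := n) p) '' K) := hKc.image_of_continuousOn ((continuousOn_co _).mono hKs)
  have h2 : ContinuousOn (rhoS g (ch (n := n) p)) (co (ch (n := n) p) '' K) := by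
    refine (continuousOn_rhoS g he).mono ?_
    rw [← image_co_source]
    exact image_mono hKs
  exact (h2.integrableOn_compact h1).lintegral_lt_top

theorem bvol_lt_top (g : Metric n X) : bvol g univ < ⊤ := by
  refine isCompact_univ.measure_lt_top_of_nhdsWithin fun p _ => ?_
  rw [nhdsWithin_univ]
  have he := chart_mem_atlas (EuclideanHalfSpace (n + 1)) p
  obtain ⟨K, hK, hKs, hKc⟩ := local_compact_nhds ((ch (n := n) p).open_source.mem_nhds
    (mem_chart_source (EuclideanHalfSpace (n + 1)) p))
  refine ⟨K, hK, ?_⟩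
  rw [(bvol_spec g).2 _ he K hKs hKc.isClosed.measurableSet]
  have h0 : IsCompact (co (ch (n := n) p) '' K) := hKc.image_of_continuousOn ((continuousOn_co _).mono hKs)
  have h1 : IsCompact {z : V n | bd z ∈ co (ch (n := n) p) '' K} := isClosedEmbedding_bd.isCompact_preimage h0
  have h2 : ContinuousOn (rhoB g (ch (n := n) p)) {z : V n | bd z ∈ co (ch (n := n) p) '' K} := by
    refine (continuousOn_rhoB g he).mono ?_
    intro z hz
    show bd z ∈ dom (ch (n := n) p)
    rw [← image_co_source]
    exact image_mono hKs hz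
  exact (h2.integrableOn_compact h1).lintegral_lt_top

instance instFiniteVol (g : Metric n X) : IsFiniteMeasure (vol g) := ⟨vol_lt_top g⟩

instance instFiniteBVol (g : Metric n X) : IsFiniteMeasure (bvol g) := ⟨bvol_lt_top g⟩

theorem bvol_compl_boundary (g : Metric n X) : bvol g ((𝓡∂ (n + 1)).boundary X)ᶜ = 0 := (bvol_spec g).1

theorem ae_bvol_boundary (g : Metric n X) : ∀ᵐ p ∂(bvol g), p ∈ (𝓡∂ (n + 1)).boundary X := by
  exact mem_ae_iff.2 (bvol_compl_boundary g)

theorem vol_boundary (g : Metric n X) : vol g ((𝓡∂ (n + 1)).boundary X) = 0 := by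
  obtain ⟨s, hs, hcov⟩ := exists_finite_cover (n := n) (X := X)
  have h1 : (𝓡∂ (n + 1)).boundary X ⊆ ⋃ e ∈ s, ((𝓡∂ (n + 1)).boundary X ∩ e.source) := by
    intro p hp
    have h2 : p ∈ ⋃ e ∈ s, e.source := by rw [hcov]; exact mem_univ p
    obtain ⟨e, he, hpe⟩ := mem_iUnion₂.1 h2
    exact mem_iUnion₂.2 ⟨e, he, hp, hpe⟩
  refine measure_mono_null h1 ?_
  refine (measure_biUnion_null_iff s.countable_toSet).2 ?_
  intro e he
  have he' := hs e he
  have hm : MeasurableSet ((𝓡∂ (n + 1)).boundary X ∩ e.source) :=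
    (isClosed_boundary (X := X)).measurableSet.inter e.open_source.measurableSet
  rw [vol_spec g e he' _ inter_subset_right hm]
  refine setLIntegral_measure_zero _ _ (measure_mono_null ?_ volume_Hs_diff_Ho)
  rintro _ ⟨p, ⟨hp1, hp2⟩, rfl⟩
  rw [mem_boundary_iff he' hp2] at hp1
  refine ⟨co_mem_Hs e p, ?_⟩
  intro h
  have h3 : 0 < co e p 0 := h
  rw [hp1] at h3
  exact lt_irrefl _ h3

theorem bvol_ne (g : Metric n X) (h : ((𝓡∂ (n + 1)).boundary X).Nonempty) : bvol g univ ≠ 0 := by
  obtain ⟨p, hp⟩ := h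
  intro h0
  have he := chart_mem_atlas (EuclideanHalfSpace (n + 1)) p
  have hps := mem_chart_source (EuclideanHalfSpace (n + 1)) p
  have h1 : bvol g (ch (n := n) p).source = 0 := measure_mono_null (subset_univ _) h0
  rw [(bvol_spec g).2 _ he _ subset_rfl (ch (n := n) p).open_source.measurableSet, image_co_source] at h1
  have h2 : volume (bdom (ch (n := n) p)) = 0 :=
    null_of_lintegral (isOpen_bdom _).measurableSet (continuousOn_rhoB g he)
      (fun z hz => rhoB_pos g he hz) h1
  have h3 : tl (co (ch (n := n) p) p) ∈ bdom (ch (n := n) p) := by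
    show bd (tl (co (ch (n := n) p) p)) ∈ dom (ch (n := n) p)
    rw [bd_tl ((mem_boundary_iff he hps).1 hp)]
    exact co_mem_dom _ hps
  exact ((isOpen_bdom (ch (n := n) p)).measure_pos volume ⟨_, h3⟩).ne' h2

theorem vol_open_pos (g : Metric n X) {U : Set X} (hU : IsOpen U) (hne : U.Nonempty) : vol g U ≠ 0 := by
  obtain ⟨p, hp⟩ := hne
  intro h0
  have he := chart_mem_atlas (EuclideanHalfSpace (n + 1)) p
  have hps := mem_chart_source (EuclideanHalfSpace (n + 1)) p
  have hAo : IsOpen (U ∩ (ch (n := n) p).source) := hU.inter (ch (n := n) p).open_source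
  have h1 : vol g (U ∩ (ch (n := n) p).source) = 0 := measure_mono_null inter_subset_left h0
  rw [vol_spec g _ he _ inter_subset_right hAo.measurableSet] at h1
  have hsub : co (ch (n := n) p) '' (U ∩ (ch (n := n) p).source) ⊆ dom (ch (n := n) p) := by
    rw [← image_co_source]
    exact image_mono inter_subset_right
  have h2 : volume (co (ch (n := n) p) '' (U ∩ (ch (n := n) p).source)) = 0 :=
    null_of_lintegral (measurableSet_image_co _ inter_subset_right hAo.measurableSet)
      ((continuousOn_rhoS g he).mono hsub) (fun y hy => rhoS_pos g he (hsub hy)) h1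
  have h3 : co (ch (n := n) p) '' (U ∩ (ch (n := n) p).source) ∈ 𝓝[Hs n] (co (ch (n := n) p) p) := by
    rw [image_co _ inter_subset_right]
    have h4 := continuousOn_pt (ch (n := n) p) _ (co_mem_dom _ hps)
    have h5 : pt (ch (n := n) p) (co (ch (n := n) p) p) = p := pt_co _ hps
    have h6 : pt (ch (n := n) p) ⁻¹' (U ∩ (ch (n := n) p).source) ∈ 𝓝[dom (ch (n := n) p)] (co (ch (n := n) p) p) := by
      apply h4
      rw [h5]
      exact hAo.mem_nhds ⟨hp, hps⟩
    rw [(dom_chart (ch (n := n) p)).nhds_eq (co_mem_dom _ hps)]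
    filter_upwards [h6, self_mem_nhdsWithin] with y hy hy'
    exact ⟨hy', hy⟩
  obtain ⟨O, hO, hpO, hOs⟩ := mem_nhdsWithin.1 h3
  have h7 : (O ∩ interior (Hs n)).Nonempty := by
    have h8 : co (ch (n := n) p) p ∈ closure (interior (Hs n)) := Hs_subset_closure (co_mem_Hs _ p)
    exact mem_closure_iff.1 h8 O hO hpO
  have h9 : volume (O ∩ interior (Hs n)) = 0 :=
    measure_mono_null (fun y hy => hOs ⟨hy.1, interior_subset hy.2⟩) h2
  exact ((hO.inter isOpen_interior).measure_pos volume h7).ne' h9

theorem vol_ne (g : Metric n X) [Nonempty X] : vol g univ ≠ 0 := vol_open_pos g isOpen_univ univ_nonempty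

end fin

end Pool.Agent.CY
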