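import Pool.Agent.CY.S3.Base

/-!
Project CY, part S3a: the metric in charts: positivity and continuity of the determinants, the transformation
law in matrix form.

PLAN. `compat_mat`: unfold `Metric.compat`, matrix products are the double sums (`Finset.mul_sum`,
`Finset.sum_comm`).  `jac_mul`: chain rule `Dom.pd_comp_map` for `tr e' e ∘ tr e e' = id` on `dom2 e e'`
(`tr_tr`), or use `compat_mat` and positivity of the determinants for `det_jac_ne`.
Boundary: `tr e e' (bd z) = bd (..)` for `z` near a given `z`, so `pd (a+1)` of the component `0` of `tr e e'`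
vanishes at `bd z`; so the matrix `jac` at `bd z` has the block form `[[j00, 0], [*, bjac]]` and
`tang_compat` follows; `bjac` is the Jacobian of `z ↦ tl (tr e e' (bd z))`.
-/

set_option autoImplicit false
set_option linter.unusedSectionVars false

open scoped Manifold ContDiff ENNReal
open MeasureTheory Set Filter Topology

namespace Pool.Agent.CY

section loc

variable {n : ℕ} {X : Type} [TopologicalSpace X] [ChartedSpace (EuclideanHalfSpace (n + 1)) X]

theorem Metric.det_pos (g : Metric n X) {e : OpenPartialHomeomorph X (EuclideanHalfSpace (n + 1))}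
    (he : e ∈ atlas (EuclideanHalfSpace (n + 1)) X) {y : V (n + 1)} (hy : y ∈ dom e) :
    0 < (g.G e y).det := by
  exact (g.posDef e he y hy).det_pos

theorem Metric.continuousOn_G (g : Metric n X) {e : OpenPartialHomeomorph X (EuclideanHalfSpace (n + 1))}
    (he : e ∈ atlas (EuclideanHalfSpace (n + 1)) X) : ContinuousOn (g.G e) (dom e) := by
  refine continuousOn_pi.2 fun i => continuousOn_pi.2 fun j => ?_
  exact (g.smooth e he i j).continuousOn

theorem Metric.continuousOn_det (g : Metric n X) {e : OpenPartialHomeomorph X (EuclideanHalfSpace (n + 1))}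
    (he : e ∈ atlas (EuclideanHalfSpace (n + 1)) X) : ContinuousOn (fun y => (g.G e y).det) (dom e) := by
  exact (continuous_id.matrix_det).comp_continuousOn (g.continuousOn_G he)

theorem Metric.continuousOn_inv (g : Metric n X) {e : OpenPartialHomeomorph X (EuclideanHalfSpace (n + 1))}
    (he : e ∈ atlas (EuclideanHalfSpace (n + 1)) X) : ContinuousOn (fun y => (g.G e y)⁻¹) (dom e) := by
  have h1 : ∀ y, (g.G e y)⁻¹ = (g.G e y).det⁻¹ • (g.G e y).adjugate := by
    intro y
    rw [Matrix.inv_def, Ring.inverse_eq_inv']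
  simp only [h1]
  exact ((g.continuousOn_det he).inv₀ fun y hy => (g.det_pos he hy).ne').smul
    ((continuous_id.matrix_adjugate).comp_continuousOn (g.continuousOn_G he))

theorem Metric.tang_posDef (g : Metric n X) {e : OpenPartialHomeomorph X (EuclideanHalfSpace (n + 1))}
    (he : e ∈ atlas (EuclideanHalfSpace (n + 1)) X) {z : V n} (hz : z ∈ bdom e) :
    (tang (g.G e) z).PosDef := by
  have h1 := g.posDef e he (bd z) hz
  have h2 : tang (g.G e) z = (g.G e (bd z)).submatrix Fin.succ Fin.succ := rfl
  rw [h2]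
  exact h1.submatrix (Fin.succ_injective n)

theorem Metric.tang_det_pos (g : Metric n X) {e : OpenPartialHomeomorph X (EuclideanHalfSpace (n + 1))}
    (he : e ∈ atlas (EuclideanHalfSpace (n + 1)) X) {z : V n} (hz : z ∈ bdom e) :
    0 < (tang (g.G e) z).det := by
  exact (g.tang_posDef he hz).det_pos

theorem Metric.continuousOn_tang_det (g : Metric n X)
    {e : OpenPartialHomeomorph X (EuclideanHalfSpace (n + 1))}
    (he : e ∈ atlas (EuclideanHalfSpace (n + 1)) X) :
    ContinuousOn (fun z => (tang (g.G e) z).det) (bdom e) := by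
  have h1 : ContinuousOn (fun z => tang (g.G e) z) (bdom e) := by
    refine continuousOn_pi.2 fun i => continuousOn_pi.2 fun j => ?_
    exact (g.smooth e he i.succ j.succ).continuousOn.comp continuous_bd.continuousOn fun z hz => hz
  exact (continuous_id.matrix_det).comp_continuousOn h1

/-- Jacobian matrix of the transition map: `jac k i = ∂_i (tr_k)`. -/
noncomputable def jac (e e' : OpenPartialHomeomorph X (EuclideanHalfSpace (n + 1))) (y : V (n + 1)) :
    Matrix (Fin (n + 1)) (Fin (n + 1)) ℝ :=
  Matrix.of fun k i => pd (Hs n) i (fun z => tr e e' z k) y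

/-- Jacobian matrix of the boundary transition map. -/
noncomputable def bjac (e e' : OpenPartialHomeomorph X (EuclideanHalfSpace (n + 1))) (z : V n) :
    Matrix (Fin n) (Fin n) ℝ :=
  Matrix.of fun k i => pd (Hs n) i.succ (fun w => tr e e' w k.succ) (bd z)

theorem Metric.compat_mat (g : Metric n X) {e e' : OpenPartialHomeomorph X (EuclideanHalfSpace (n + 1))}
    (he : e ∈ atlas (EuclideanHalfSpace (n + 1)) X) (he' : e' ∈ atlas (EuclideanHalfSpace (n + 1)) X)
    {y : V (n + 1)} (hy : y ∈ dom2 e e') :
    g.G e y = (jac e e' y).transpose * g.G e' (tr e e' y) * jac e e' y := by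
  ext i j
  have h1 := g.compat e he e' he' y hy.1 hy.2 i j
  rw [h1, Matrix.mul_apply]
  simp only [Matrix.mul_apply, Matrix.transpose_apply, Finset.sum_mul]
  rw [Finset.sum_comm]
  refine Finset.sum_congr rfl fun l _ => Finset.sum_congr rfl fun k _ => ?_
  simp only [jac, Matrix.of_apply, tr]
  ring

theorem Metric.det_jac_ne (g : Metric n X) {e e' : OpenPartialHomeomorph X (EuclideanHalfSpace (n + 1))}
    (he : e ∈ atlas (EuclideanHalfSpace (n + 1)) X) (he' : e' ∈ atlas (EuclideanHalfSpace (n + 1)) X)
    {y : V (n + 1)} (hy : y ∈ dom2 e e') : (jac e e' y).det ≠ 0 := by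
  intro h0
  have h1 := g.det_pos he hy.1
  rw [g.compat_mat he he' hy, Matrix.det_mul, h0, mul_zero] at h1
  exact lt_irrefl _ h1

theorem Metric.sqrt_det_compat (g : Metric n X)
    {e e' : OpenPartialHomeomorph X (EuclideanHalfSpace (n + 1))}
    (he : e ∈ atlas (EuclideanHalfSpace (n + 1)) X) (he' : e' ∈ atlas (EuclideanHalfSpace (n + 1)) X)
    {y : V (n + 1)} (hy : y ∈ dom2 e e') :
    Real.sqrt (g.G e y).det = |(jac e e' y).det| * Real.sqrt (g.G e' (tr e e' y)).det := by
  have h1 : (g.G e y).det = (jac e e' y).det ^ 2 * (g.G e' (tr e e' y)).det := by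
    rw [g.compat_mat he he' hy, Matrix.det_mul, Matrix.det_mul, Matrix.det_transpose]
    ring
  rw [h1, Real.sqrt_mul (sq_nonneg _), Real.sqrt_sq_eq_abs]

variable [IsManifold (𝓡∂ (n + 1)) ∞ X]

/-- `bd` as a continuous linear map -/
noncomputable def bdL (n : ℕ) : V n →L[ℝ] V (n + 1) :=
  LinearMap.toContinuousLinearMap
    { toFun := bd
      map_add' := by
        intro x y
        ext i
        refine Fin.cases ?_ (fun i => ?_) i
        · simp
        · simp
      map_smul' := by
        intro c x
        ext i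
        refine Fin.cases ?_ (fun i => ?_) i
        · simp
        · simp }

theorem bdL_apply (z : V n) : bdL n z = bd z := rfl

theorem bdL_single (a : Fin n) :
    bdL n (EuclideanSpace.single a 1) = EuclideanSpace.single a.succ 1 := by
  rw [bdL_apply]
  ext i
  refine Fin.cases ?_ (fun i => ?_) i
  · rw [bd_zero]
    simp [(Fin.succ_ne_zero a).symm]
  · rw [bd_succ]
    simp [Fin.succ_inj]

/-- tangential derivatives of the normal component of the transition map vanish on the boundary -/
theorem jac_zero_succ {e e' : OpenPartialHomeomorph X (EuclideanHalfSpace (n + 1))}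
    (he : e ∈ atlas (EuclideanHalfSpace (n + 1)) X) (he' : e' ∈ atlas (EuclideanHalfSpace (n + 1)) X)
    {z : V n} (hz : bd z ∈ dom2 e e') (a : Fin n) : jac e e' (bd z) 0 a.succ = 0 := by
  have hD := dom_chart2 e e'
  have hφ : DifferentiableOn ℝ (fun w => tr e e' w 0) (dom2 e e') :=
    (contDiffOn_tr he he' 0).differentiableOn (by simp)
  have h1 : HasFDerivWithinAt (fun w => tr e e' w 0)
      (fderivWithin ℝ (fun w => tr e e' w 0) (Hs n) (bd z)) (Hs n) (bd z) :=
    (hD.diffAt hφ hz).hasFDerivWithinAt
  have h2 : HasFDerivAt (bd : V n → V (n + 1)) (bdL n) z := (bdL n).hasFDerivAt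
  have h3 : HasFDerivAt (fun z' => tr e e' (bd z') 0)
      ((fderivWithin ℝ (fun w => tr e e' w 0) (Hs n) (bd z)).comp (bdL n)) z := by
    have h2' : HasFDerivWithinAt (bd : V n → V (n + 1)) (bdL n) univ z := h2.hasFDerivWithinAt
    have := h1.comp z h2' (fun w _ => bd_mem_Hs w)
    exact hasFDerivWithinAt_univ.1 this
  have h4 : (fun z' => tr e e' (bd z') 0) =ᶠ[𝓝 z] fun _ => (0 : ℝ) := by
    have h5 : ∀ᶠ z' in 𝓝 z, bd z' ∈ dom2 e e' := by
      have h6 : Tendsto (bd : V n → V (n + 1)) (𝓝 z) (𝓝[Hs n] (bd z)) := by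
        refine tendsto_nhdsWithin_iff.2 ⟨continuous_bd.continuousAt, ?_⟩
        exact Filter.Eventually.of_forall bd_mem_Hs
      exact h6 (hD.nhds _ hz)
    filter_upwards [h5] with z' hz'
    rw [← tr_bd he he' hz', bd_zero]
  have h7 : (fderivWithin ℝ (fun w => tr e e' w 0) (Hs n) (bd z)).comp (bdL n) = 0 := by
    have h8 := h3.congr_of_eventuallyEq h4.symm
    exact h8.unique (hasFDerivAt_const (0 : ℝ) z)
  have h9 := congrArg (fun L : V n →L[ℝ] ℝ => L (EuclideanSpace.single a 1)) h7
  simp only [ContinuousLinearMap.comp_apply, bdL_single] at h9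
  exact h9

theorem Metric.tang_compat (g : Metric n X) {e e' : OpenPartialHomeomorph X (EuclideanHalfSpace (n + 1))}
    (he : e ∈ atlas (EuclideanHalfSpace (n + 1)) X) (he' : e' ∈ atlas (EuclideanHalfSpace (n + 1)) X)
    {z : V n} (hz : bd z ∈ dom2 e e') :
    tang (g.G e) z =
      (bjac e e' z).transpose * tang (g.G e') (tl (tr e e' (bd z))) * bjac e e' z := by
  ext a b
  have h1 := g.compat e he e' he' (bd z) hz.1 hz.2 a.succ b.succ
  have h2 : ∀ a : Fin n, pd (Hs n) a.succ (fun w => co e' (pt e w) 0) (bd z) = 0 :=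
    fun a => jac_zero_succ he he' hz a
  have h3 : tang (g.G e) z a b = g.G e (bd z) a.succ b.succ := rfl
  rw [h3, h1, Fin.sum_univ_succ]
  simp only [h2, zero_mul, Finset.sum_const_zero, zero_add]
  have h6 : ∀ k : Fin n, ∑ l : Fin (n + 1),
      pd (Hs n) a.succ (fun z => co e' (pt e z) k.succ) (bd z) *
        pd (Hs n) b.succ (fun z => co e' (pt e z) l) (bd z) *
        g.G e' (co e' (pt e (bd z))) k.succ l =
      ∑ l : Fin n, pd (Hs n) a.succ (fun z => co e' (pt e z) k.succ) (bd z) *
        pd (Hs n) b.succ (fun z => co e' (pt e z) l.succ) (bd z) *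
        g.G e' (co e' (pt e (bd z))) k.succ l.succ := by
    intro k
    rw [Fin.sum_univ_succ, h2, mul_zero, zero_mul, zero_add]
  simp only [h6]
  rw [Matrix.mul_apply]
  simp only [Matrix.mul_apply, Matrix.transpose_apply, Finset.sum_mul]
  rw [Finset.sum_comm]
  refine Finset.sum_congr rfl fun l _ => Finset.sum_congr rfl fun k _ => ?_
  have h4 : tang (g.G e') (tl (tr e e' (bd z))) k l = g.G e' (co e' (pt e (bd z))) k.succ l.succ := by
    have h5 : tang (g.G e') (tl (tr e e' (bd z))) k l =
      g.G e' (bd (tl (tr e e' (bd z)))) k.succ l.succ := rfl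
    rw [h5, tr_bd he he' hz]
    rfl
  rw [h4]
  simp only [bjac, Matrix.of_apply, tr]
  ring

theorem Metric.sqrt_tang_compat (g : Metric n X)
    {e e' : OpenPartialHomeomorph X (EuclideanHalfSpace (n + 1))}
    (he : e ∈ atlas (EuclideanHalfSpace (n + 1)) X) (he' : e' ∈ atlas (EuclideanHalfSpace (n + 1)) X)
    {z : V n} (hz : bd z ∈ dom2 e e') :
    Real.sqrt (tang (g.G e) z).det =
      |(bjac e e' z).det| * Real.sqrt (tang (g.G e') (tl (tr e e' (bd z)))).det := by
  have h1 : (tang (g.G e) z).det =
      (bjac e e' z).det ^ 2 * (tang (g.G e') (tl (tr e e' (bd z)))).det := by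
    rw [g.tang_compat he he' hz, Matrix.det_mul, Matrix.det_mul, Matrix.det_transpose]
    ring
  rw [h1, Real.sqrt_mul (sq_nonneg _), Real.sqrt_sq_eq_abs]

end loc

end Pool.Agent.CY
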