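import Pool.Agent.CY.S3.FrameD
import Pool.Agent.CY.S3.Loc

/-!
Project CY, part S3a: `‖D u‖² = |du|²`.

PLAN. `gip_chart` (chart invariance of `gip`): `Dom.pd_comp_map` for `loc e u = loc e' u ∘ tr e e'` on
`dom2 e e'` and `Metric.compat_mat` (inverse matrices) [may come from S5].  `inner_D`:
`∑_{i,j} η_i² (S_i ∂u)_j (S_i ∂v)_j = ∑_i η_i² (∂u)ᵀ SᵀS ∂v = ∑_i η_i² gip_i = gipX` (`S_sq`, `η_sum`,
terms with `p ∉ (e i).source` vanish).
-/

set_option autoImplicit false
set_option linter.unusedSectionVars false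

open scoped Manifold ContDiff ENNReal Matrix
open MeasureTheory Set Filter Topology

namespace Pool.Agent.CY

section normD

variable {n : ℕ} {X : Type} [TopologicalSpace X] [ChartedSpace (EuclideanHalfSpace (n + 1)) X]
  [IsManifold (𝓡∂ (n + 1)) ∞ X]

private theorem gip_eq_dot {m : ℕ} (S : Set (V m)) (g : MF m) (f k : V m → ℝ) (y : V m) :
    gip S g f k y = (fun i => pd S i f y) ⬝ᵥ ((g y)⁻¹ *ᵥ (fun j => pd S j k y)) := by
  simp only [gip, dotProduct, Matrix.mulVec, Finset.mul_sum]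
  refine Finset.sum_congr rfl fun i _ => Finset.sum_congr rfl fun j _ => ?_
  ring

private theorem dot_inv {m : ℕ} (J G' : Matrix (Fin m) (Fin m) ℝ) (hJ : J.det ≠ 0) (a b : Fin m → ℝ) :
    (J.transpose *ᵥ a) ⬝ᵥ ((J.transpose * G' * J)⁻¹ *ᵥ (J.transpose *ᵥ b)) = a ⬝ᵥ (G'⁻¹ *ᵥ b) := by
  have hJ' : IsUnit J.det := hJ.isUnit
  have hJt : IsUnit J.transpose.det := by rw [Matrix.det_transpose]; exact hJ'
  rw [Matrix.mul_inv_rev, Matrix.mul_inv_rev, Matrix.mulVec_mulVec, Matrix.mul_assoc, Matrix.mul_assoc,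
    Matrix.nonsing_inv_mul _ hJt, Matrix.mul_one, ← Matrix.mulVec_mulVec, Matrix.mulVec_transpose,
    ← Matrix.dotProduct_mulVec, Matrix.mulVec_mulVec, Matrix.mul_nonsing_inv _ hJ', Matrix.one_mulVec]

private theorem pd_loc {e e' : OpenPartialHomeomorph X (EuclideanHalfSpace (n + 1))}
    (he : e ∈ atlas (EuclideanHalfSpace (n + 1)) X) (he' : e' ∈ atlas (EuclideanHalfSpace (n + 1)) X)
    {u : X → ℝ} (hu : u ∈ C1 n X) {y : V (n + 1)} (hy : y ∈ dom2 e e') :
    (fun i => pd (Hs n) i (loc e u) y) =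
      (jac e e' y).transpose *ᵥ (fun k => pd (Hs n) k (loc e' u) (tr e e' y)) := by
  funext i
  have h1 : ContDiffOn ℝ 1 (loc e' u) (dom2 e' e) :=
    (contDiffOn_loc (k := 1) he' hu).mono (dom2_subset e' e)
  have h2 : pd (Hs n) i (loc e u) y = pd (Hs n) i (fun z => loc e' u (tr e e' z)) y := by
    refine (dom_chart2 e e').pd_congr i (fun z hz => ?_) hy
    show u (pt e z) = u (pt e' (tr e e' z))
    rw [pt_tr e e' hz]
  rw [h2, (dom_chart2 e e').pd_comp_map (dom_chart2 e' e) i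
    (fun k => (contDiffOn_tr he he' k).differentiableOn (by simp)) (h1.differentiableOn (by simp))
    (fun z hz => tr_mem e e' hz) hy]
  simp only [Matrix.mulVec, dotProduct, Matrix.transpose_apply, jac, Matrix.of_apply]

theorem gip_chart (g : Metric n X) {e : OpenPartialHomeomorph X (EuclideanHalfSpace (n + 1))}
    (he : e ∈ atlas (EuclideanHalfSpace (n + 1)) X) {p : X} (hp : p ∈ e.source) {u v : X → ℝ}
    (hu : u ∈ C1 n X) (hv : v ∈ C1 n X) :
    gip (Hs n) (g.G e) (loc e u) (loc e v) (co e p) = gipX g u v p := by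
  have he' : ch p ∈ atlas (EuclideanHalfSpace (n + 1)) X := chart_mem_atlas _ p
  have hp' : p ∈ (ch (n := n) p).source := mem_chart_source _ p
  have hy : co e p ∈ dom2 e (ch p) := by
    refine ⟨co_mem_dom e hp, ?_⟩
    rw [pt_co (n := n) e hp]; exact hp'
  have htr : tr e (ch p) (co e p) = co (ch p) p := by
    show co (ch p) (pt e (co e p)) = co (ch p) p
    rw [pt_co (n := n) e hp]
  rw [gipX, gip_eq_dot, gip_eq_dot, pd_loc he he' hu hy, pd_loc he he' hv hy, g.compat_mat he he' hy,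
    dot_inv _ _ (g.det_jac_ne he he' hy), htr]

theorem inner_D {g : Metric n X} (f : Frame g) {u v : X → ℝ} (hu : u ∈ C1 n X) (hv : v ∈ C1 n X) (p : X) :
    inner ℝ (f.D u p) (f.D v p) = gipX g u v p := by
  have h1 : inner ℝ (f.D u p) (f.D v p) = ∑ ij : Fin f.N × Fin (n + 1), f.D u p ij * f.D v p ij := by
    rw [PiLp.inner_apply]
    refine Finset.sum_congr rfl fun ij _ => ?_
    simp only [RCLike.inner_apply, conj_trivial]
    exact mul_comm _ _
  rw [h1, Fintype.sum_prod_type]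
  have h2 : ∀ i : Fin f.N, ∑ j : Fin (n + 1), f.D u p (i, j) * f.D v p (i, j) = f.η i p ^ 2 * gipX g u v p := by
    intro i
    by_cases hp : p ∈ (f.e i).source
    · rw [← gip_chart g (f.e_mem i) hp hu hv, gip_eq_dot, ← f.S_sq i _ (co_mem_dom _ hp)]
      set a : Fin (n + 1) → ℝ := fun k => pd (Hs n) k (loc (f.e i) u) (co (f.e i) p) with ha
      set b : Fin (n + 1) → ℝ := fun k => pd (Hs n) k (loc (f.e i) v) (co (f.e i) p) with hb
      set S : Matrix (Fin (n + 1)) (Fin (n + 1)) ℝ := f.S i (co (f.e i) p) with hS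
      have h3 : a ⬝ᵥ ((S.transpose * S) *ᵥ b) = (S *ᵥ a) ⬝ᵥ (S *ᵥ b) := by
        rw [← Matrix.mulVec_mulVec, Matrix.dotProduct_mulVec, Matrix.vecMul_transpose]
      rw [h3, dotProduct, Finset.mul_sum]
      refine Finset.sum_congr rfl fun j _ => ?_
      rw [f.D_apply, f.D_apply]
      show f.η i p * (S *ᵥ a) j * (f.η i p * (S *ᵥ b) j) = _
      ring
    · have h0 := f.η_zero hp
      rw [h0]
      refine (Finset.sum_eq_zero fun j _ => ?_).trans (by ring)
      rw [f.D_apply]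
      simp only [h0, zero_mul]
  rw [Finset.sum_congr rfl fun i _ => h2 i, ← Finset.sum_mul, f.η_sum, one_mul]

theorem norm_D (g : Metric n X) (f : Frame g) (u : X → ℝ) (hu : u ∈ C1 n X) (p : X) :
    ‖f.D u p‖ ^ 2 = gipX g u u p := by
  rw [← inner_D f hu hu p, real_inner_self_eq_norm_sq]

theorem gipX_nonneg (g : Metric n X) (u : X → ℝ) (p : X) : 0 ≤ gipX g u u p := by
  have h := (g.posDef (ch p) (chart_mem_atlas _ p) (co (ch p) p)
    (co_mem_dom _ (mem_chart_source _ p))).inv.posSemidef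
  rw [gipX, gip_eq_dot]
  have h1 := h.dotProduct_mulVec_nonneg (fun i => pd (Hs n) i (loc (ch p) u) (co (ch p) p))
  simpa using h1

end normD

end Pool.Agent.CY
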