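import Pool.Agent.CY.S3.ConfVol
import Pool.Agent.CY.S3.ExFrame
import Pool.Agent.CY.S3.NormD

/-!
Project CY, part S3a: summary.  The targets `exists_vol`, `exists_bvol`, `vol_unique`, `bvol_unique`,
`exists_frame`, `bvol_ne`, `norm_D` are proved in the imported files.  Here: the structure `IsSob` from its
four inequalities.
-/

set_option autoImplicit false
set_option linter.unusedSectionVars false

open scoped Manifold ContDiff ENNReal
open MeasureTheory Set Filter Topology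

namespace Pool.Agent.CY

section finalA

variable {n : ℕ} {X : Type} [TopologicalSpace X] [ChartedSpace (EuclideanHalfSpace (n + 1)) X]
  [IsManifold (𝓡∂ (n + 1)) ∞ X] [CompactSpace X] [T2Space X] [MeasurableSpace X] [BorelSpace X]

/-- the fields of `IsSob` other than the inequalities hold -/
theorem isSob_of (g : Metric n X) (f : Frame g)
    (sob : ∃ C : ℝ, ∀ u ∈ C1 n X,
      PP n (vol g) u + QQ n (bvol g) u ≤ C * (DD (vol g) (f.D u) + ∫ x, u x ^ 2 ∂(vol g)))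
    (tr : ∀ ε > 0, ∃ C : ℝ, ∀ u ∈ C1 n X,
      ∫ x, u x ^ 2 ∂(bvol g) ≤ ε * DD (vol g) (f.D u) + C * ∫ x, u x ^ 2 ∂(vol g))
    (rel : ∀ u : ℕ → X → ℝ, (∀ k, u k ∈ C1 n X) →
      (∃ C : ℝ, ∀ k, DD (vol g) (f.D (u k)) + ∫ x, u k x ^ 2 ∂(vol g) ≤ C) →
      ∃ φ : ℕ → ℕ, StrictMono φ ∧ ∀ ε > 0, ∃ N, ∀ j ≥ N, ∀ k ≥ N,
        ∫ x, (u (φ j) x - u (φ k) x) ^ 2 ∂(vol g) ≤ ε)
    (poin : ∃ C : ℝ, ∀ u ∈ C1 n X,
      ∫ x, u x ^ 2 ∂(vol g) ≤ C * (DD (vol g) (f.D u) + (∫ x, u x ∂(vol g)) ^ 2)) :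
    IsSob n (vol g) (bvol g) (C1 n X) f.D where
  fin_μ := vol_lt_top g
  fin_σ := bvol_lt_top g
  cont := fun _ hu => C1.continuous hu
  contD := fun _ hu => f.continuous_D hu
  const := C1.const
  add := fun _ hu _ hv => C1.add hu hv
  smul := fun c _ hu => C1.smul c hu
  comp := fun _ hf _ hu => C1.comp hf hu
  D_const := f.D_const
  D_add := fun _ hu _ hv => f.D_add hu hv
  D_smul := fun c _ hu => f.D_smul c hu
  D_comp := fun _ hf _ hu => f.D_comp hf hu
  sob := sob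
  tr := tr
  rel := rel
  poin := poin

end finalA

end Pool.Agent.CY
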