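import Pool.Agent.CY.S3.Base

/-!
Project CY, part S3a: the gradient `D` of a frame: algebra and continuity; the fields `cont`, ..., `D_comp` of
`IsSob`.

PLAN. Componentwise: if `p ∉ (e i).source` then `η i p = 0`; if `p ∈ (e i).source` use the calculus of `pd`
(`Dom.pd_add`, `Dom.pd_const_mul`, `Dom.pd_comp` with `dom_chart`, `contDiffOn_loc` gives `ContDiffOn ℝ 1`,
so `DifferentiableOn`).  Continuity: on `(e i).source` (open) composition of continuous functions
(`continuousOn_co`, `Dom.continuousOn_pd`, `S_cont`); the component has support in `tsupport (η i) ⊆ source`,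
so it is continuous (`continuous_of_tsupport` style: at `p ∉ tsupport (η i)` it vanishes near `p`).
-/

set_option autoImplicit false
set_option linter.unusedSectionVars false

open scoped Manifold ContDiff ENNReal
open MeasureTheory Set Filter Topology

namespace Pool.Agent.CY

section frameD

variable {n : ℕ} {X : Type} [TopologicalSpace X] [ChartedSpace (EuclideanHalfSpace (n + 1)) X]
  [IsManifold (𝓡∂ (n + 1)) ∞ X] {g : Metric n X}

theorem C1.continuous {u : X → ℝ} (hu : u ∈ C1 n X) : Continuous u := by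
  exact ContMDiff.continuous hu

theorem C1.const (c : ℝ) : (fun _ => c) ∈ C1 n X := by
  exact contMDiff_const

theorem C1.add {u v : X → ℝ} (hu : u ∈ C1 n X) (hv : v ∈ C1 n X) : (fun x => u x + v x) ∈ C1 n X := by
  exact ContMDiff.add hu hv

theorem C1.mul {u v : X → ℝ} (hu : u ∈ C1 n X) (hv : v ∈ C1 n X) : (fun x => u x * v x) ∈ C1 n X := by
  exact ContMDiff.mul hu hv

theorem C1.smul (c : ℝ) {u : X → ℝ} (hu : u ∈ C1 n X) : (fun x => c * u x) ∈ C1 n X := by
  exact C1.mul (C1.const c) hu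

theorem C1.comp {f : ℝ → ℝ} (hf : ContDiff ℝ 1 f) {u : X → ℝ} (hu : u ∈ C1 n X) :
    (fun x => f (u x)) ∈ C1 n X := by
  exact hf.contMDiff.comp hu

theorem C1.of_smooth {u : X → ℝ} (hu : ContMDiff (𝓡∂ (n + 1)) 𝓘(ℝ) ∞ u) : u ∈ C1 n X := by
  exact hu.of_le (by exact_mod_cast le_top)

theorem Frame.D_apply (f : Frame g) (u : X → ℝ) (p : X) (ij : Fin f.N × Fin (n + 1)) :
    f.D u p ij = f.η ij.1 p *
      ∑ k, f.S ij.1 (co (f.e ij.1) p) ij.2 k * pd (Hs n) k (loc (f.e ij.1) u) (co (f.e ij.1) p) := rfl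

theorem diffOn_loc {e : OpenPartialHomeomorph X (EuclideanHalfSpace (n + 1))}
    (he : e ∈ atlas (EuclideanHalfSpace (n + 1)) X) {u : X → ℝ} (hu : u ∈ C1 n X) :
    DifferentiableOn ℝ (loc e u) (dom e) := by
  have h1 : ContDiffOn ℝ ((1 : ℕ∞) : WithTop ℕ∞) (fun y => u (pt e y)) (dom e) :=
    contDiffOn_loc he (by exact_mod_cast hu)
  exact h1.differentiableOn (by simp)

theorem contDiffOn_loc1 {e : OpenPartialHomeomorph X (EuclideanHalfSpace (n + 1))}
    (he : e ∈ atlas (EuclideanHalfSpace (n + 1)) X) {u : X → ℝ} (hu : u ∈ C1 n X) :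
    ContDiffOn ℝ 1 (loc e u) (dom e) := by
  have h1 : ContDiffOn ℝ ((1 : ℕ∞) : WithTop ℕ∞) (fun y => u (pt e y)) (dom e) :=
    contDiffOn_loc he (by exact_mod_cast hu)
  exact_mod_cast h1

theorem Frame.η_zero (f : Frame g) {i : Fin f.N} {p : X} (hp : p ∉ (f.e i).source) : f.η i p = 0 := by
  by_contra h
  exact hp (f.η_supp i (subset_tsupport _ h))

theorem Frame.continuous_D (f : Frame g) {u : X → ℝ} (hu : u ∈ C1 n X) : Continuous (f.D u) := by
  refine (PiLp.continuous_toLp 2 _).comp (continuous_pi fun ij => ?_)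
  rw [continuous_iff_continuousAt]
  intro p
  by_cases hp : p ∈ tsupport (f.η ij.1)
  · have hps : p ∈ (f.e ij.1).source := f.η_supp ij.1 hp
    have h1 : ContinuousOn (fun p => f.η ij.1 p * ∑ k, f.S ij.1 (co (f.e ij.1) p) ij.2 k *
        pd (Hs n) k (loc (f.e ij.1) u) (co (f.e ij.1) p)) (f.e ij.1).source := by
      refine (f.η_smooth ij.1).continuous.continuousOn.mul (continuousOn_finsetSum _ fun k _ => ?_)
      refine ContinuousOn.mul ?_ ?_
      · exact (f.S_cont ij.1 ij.2 k).comp (continuousOn_co _) fun q hq => co_mem_dom _ hq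
      · exact ((dom_chart (f.e ij.1)).continuousOn_pd k
          (contDiffOn_loc1 (f.e_mem ij.1) hu)).comp (continuousOn_co _) fun q hq => co_mem_dom _ hq
    exact h1.continuousAt ((f.e ij.1).open_source.mem_nhds hps)
  · have h1 : (fun p => f.η ij.1 p * ∑ k, f.S ij.1 (co (f.e ij.1) p) ij.2 k *
        pd (Hs n) k (loc (f.e ij.1) u) (co (f.e ij.1) p)) =ᶠ[𝓝 p] fun _ => 0 := by
      have h2 : (tsupport (f.η ij.1))ᶜ ∈ 𝓝 p := (isClosed_tsupport _).isOpen_compl.mem_nhds hp
      filter_upwards [h2] with q hq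
      rw [image_eq_zero_of_notMem_tsupport hq, zero_mul]
    exact (continuousAt_const (y := (0 : ℝ))).congr h1.symm

/-- equality of gradients is checked componentwise in the charts -/
theorem Frame.D_ext (f : Frame g) {u : X → ℝ} {p : X} {w : f.F}
    (h : ∀ i j, p ∈ (f.e i).source → f.η i p *
      ∑ k, f.S i (co (f.e i) p) j k * pd (Hs n) k (loc (f.e i) u) (co (f.e i) p) = w (i, j))
    (h' : ∀ i j, p ∉ (f.e i).source → w (i, j) = 0) : f.D u p = w := by
  ext ij
  rw [f.D_apply]
  by_cases hp : p ∈ (f.e ij.1).source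
  · exact h ij.1 ij.2 hp
  · rw [f.η_zero hp, zero_mul]
    exact (h' ij.1 ij.2 hp).symm

theorem Frame.D_zero_of (f : Frame g) (u : X → ℝ) {p : X} {i : Fin f.N} (j : Fin (n + 1))
    (hp : p ∉ (f.e i).source) : f.D u p (i, j) = 0 := by
  rw [f.D_apply, f.η_zero hp, zero_mul]

theorem Frame.D_const (f : Frame g) (c : ℝ) : f.D (fun _ => c) = 0 := by
  funext p
  refine f.D_ext (fun i j hp => ?_) (fun i j _ => rfl)
  have h1 : ∀ k, pd (Hs n) k (loc (f.e i) fun _ : X => c) (co (f.e i) p) = 0 :=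
    fun k => pd_const k c _
  simp only [h1, mul_zero, Finset.sum_const_zero]
  rfl

theorem Frame.D_add (f : Frame g) {u v : X → ℝ} (hu : u ∈ C1 n X) (hv : v ∈ C1 n X) :
    f.D (fun x => u x + v x) = f.D u + f.D v := by
  funext p
  refine f.D_ext (fun i j hp => ?_) (fun i j hp => ?_)
  · have h1 : ∀ k, pd (Hs n) k (loc (f.e i) fun x => u x + v x) (co (f.e i) p) =
        pd (Hs n) k (loc (f.e i) u) (co (f.e i) p) + pd (Hs n) k (loc (f.e i) v) (co (f.e i) p) :=
      fun k => (dom_chart (f.e i)).pd_add k (diffOn_loc (f.e_mem i) hu) (diffOn_loc (f.e_mem i) hv)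
        (co_mem_dom _ hp)
    simp only [h1, mul_add, Finset.sum_add_distrib]
    rfl
  · have h1 : (f.D u + f.D v) p (i, j) = f.D u p (i, j) + f.D v p (i, j) := rfl
    rw [h1, f.D_zero_of u j hp, f.D_zero_of v j hp, add_zero]

theorem Frame.D_smul (f : Frame g) (c : ℝ) {u : X → ℝ} (hu : u ∈ C1 n X) :
    f.D (fun x => c * u x) = c • f.D u := by
  funext p
  refine f.D_ext (fun i j hp => ?_) (fun i j hp => ?_)
  · have h1 : ∀ k, pd (Hs n) k (loc (f.e i) fun x => c * u x) (co (f.e i) p) =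
        c * pd (Hs n) k (loc (f.e i) u) (co (f.e i) p) :=
      fun k => (dom_chart (f.e i)).pd_const_mul k c (diffOn_loc (f.e_mem i) hu) (co_mem_dom _ hp)
    have h2 : (c • f.D u) p (i, j) = c * f.D u p (i, j) := rfl
    rw [h2, f.D_apply]
    simp only [h1, Finset.mul_sum]
    refine Finset.sum_congr rfl fun k _ => ?_
    ring
  · have h2 : (c • f.D u) p (i, j) = c * f.D u p (i, j) := rfl
    rw [h2, f.D_zero_of u j hp, mul_zero]

theorem Frame.D_mul (f : Frame g) {u v : X → ℝ} (hu : u ∈ C1 n X) (hv : v ∈ C1 n X) :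
    f.D (fun x => u x * v x) = fun x => u x • f.D v x + v x • f.D u x := by
  funext p
  refine f.D_ext (fun i j hp => ?_) (fun i j hp => ?_)
  · have h1 : ∀ k, pd (Hs n) k (loc (f.e i) fun x => u x * v x) (co (f.e i) p) =
        pd (Hs n) k (loc (f.e i) u) (co (f.e i) p) * v p +
          u p * pd (Hs n) k (loc (f.e i) v) (co (f.e i) p) := by
      intro k
      have h3 := (dom_chart (f.e i)).pd_mul k (diffOn_loc (f.e_mem i) hu) (diffOn_loc (f.e_mem i) hv)
        (co_mem_dom _ hp)
      have h4 : ∀ w : X → ℝ, loc (f.e i) w (co (f.e i) p) = w p := fun w => by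
        rw [loc, pt_co _ hp]
      rw [h4, h4] at h3
      exact h3
    have h2 : (u p • f.D v p + v p • f.D u p) (i, j) =
      u p * f.D v p (i, j) + v p * f.D u p (i, j) := rfl
    rw [h2, f.D_apply, f.D_apply]
    simp only [h1, Finset.mul_sum]
    rw [← Finset.sum_add_distrib]
    refine Finset.sum_congr rfl fun k _ => ?_
    ring
  · have h2 : (u p • f.D v p + v p • f.D u p) (i, j) =
      u p * f.D v p (i, j) + v p * f.D u p (i, j) := rfl
    rw [h2, f.D_zero_of u j hp, f.D_zero_of v j hp, mul_zero, mul_zero, add_zero]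

theorem Frame.D_comp (f : Frame g) {φ : ℝ → ℝ} (hφ : ContDiff ℝ 1 φ) {u : X → ℝ} (hu : u ∈ C1 n X) :
    f.D (fun x => φ (u x)) = fun x => deriv φ (u x) • f.D u x := by
  funext p
  refine f.D_ext (fun i j hp => ?_) (fun i j hp => ?_)
  · have h1 : ∀ k, pd (Hs n) k (loc (f.e i) fun x => φ (u x)) (co (f.e i) p) =
        deriv φ (u p) * pd (Hs n) k (loc (f.e i) u) (co (f.e i) p) := by
      intro k
      have h4 : loc (f.e i) u (co (f.e i) p) = u p := by rw [loc, pt_co _ hp]
      have h3 := (dom_chart (f.e i)).pd_comp (φ := φ) k (diffOn_loc (f.e_mem i) hu) (co_mem_dom _ hp)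
        (hφ.differentiable (by simp)).differentiableAt
      rw [h4] at h3
      exact h3
    have h2 : (deriv φ (u p) • f.D u p) (i, j) = deriv φ (u p) * f.D u p (i, j) := rfl
    rw [h2, f.D_apply]
    simp only [h1, Finset.mul_sum]
    refine Finset.sum_congr rfl fun k _ => ?_
    ring
  · have h2 : (deriv φ (u p) • f.D u p) (i, j) = deriv φ (u p) * f.D u p (i, j) := rfl
    rw [h2, f.D_zero_of u j hp, mul_zero]

end frameD

end Pool.Agent.CY
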