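import Mathlib

/-!
Project CY, part S3a: gluing of measures (pure measure theory).

PLAN. Induction over the finite cover: `μ'' = μ'.restrict W + (μ a).restrict (U a \ W)`, `W` the union of
the previous sets.
-/

set_option autoImplicit false

open MeasureTheory Set

namespace Pool.Agent.CY

private theorem glue_aux {X ι : Type*} [MeasurableSpace X] (E : Set ι) (U : ι → Set X)
    (hU : ∀ i ∈ E, MeasurableSet (U i)) (μ : ι → Measure X)
    (hc : ∀ i ∈ E, ∀ j ∈ E, ∀ A ⊆ U i ∩ U j, MeasurableSet A → μ i A = μ j A)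
    (s : Finset ι) (hs : ∀ i ∈ s, i ∈ E) :
    ∃ μ' : Measure X, ∀ i ∈ E, ∀ A ⊆ U i, A ⊆ ⋃ j ∈ s, U j → MeasurableSet A → μ' A = μ i A := by
  classical
  induction s using Finset.induction_on with
  | empty =>
    refine ⟨0, fun i _ A _ hA _ => ?_⟩
    have h1 : A = ∅ := by
      rw [eq_empty_iff_forall_notMem]
      intro x hx
      have := hA hx
      simp at this
    rw [h1, measure_empty, measure_empty]
  | insert a t ha ih =>
    obtain ⟨μ', hμ'⟩ := ih (fun i hi => hs i (Finset.mem_insert_of_mem hi))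
    have haE : a ∈ E := hs a (Finset.mem_insert_self a t)
    have hW : MeasurableSet (⋃ j ∈ t, U j) :=
      t.measurableSet_biUnion fun j hj => hU j (hs j (Finset.mem_insert_of_mem hj))
    refine ⟨μ'.restrict (⋃ j ∈ t, U j) + (μ a).restrict (U a \ ⋃ j ∈ t, U j), ?_⟩
    intro i hi A hA hA' hm
    rw [Measure.add_apply, Measure.restrict_apply hm, Measure.restrict_apply hm]
    rw [hμ' i hi (A ∩ ⋃ j ∈ t, U j) (inter_subset_left.trans hA) inter_subset_right (hm.inter hW)]
    have h1 : A ∩ (U a \ ⋃ j ∈ t, U j) = A \ ⋃ j ∈ t, U j := by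
      ext x
      constructor
      · rintro ⟨h1, h2, h3⟩
        exact ⟨h1, h3⟩
      · rintro ⟨h1, h2⟩
        refine ⟨h1, ?_, h2⟩
        have h3 := hA' h1
        rw [Finset.set_biUnion_insert] at h3
        exact h3.resolve_right h2
    rw [h1]
    have h2 : μ a (A \ ⋃ j ∈ t, U j) = μ i (A \ ⋃ j ∈ t, U j) := by
      refine hc a haE i hi _ ?_ (hm.diff hW)
      rw [← h1]
      intro x hx
      exact ⟨hx.2.1, hA hx.1⟩
    rw [h2]
    exact measure_inter_add_diff A hW

theorem glue_measure {X ι : Type*} [MeasurableSpace X] (E : Set ι) (U : ι → Set X)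
    (hU : ∀ i ∈ E, MeasurableSet (U i)) (μ : ι → Measure X)
    (hc : ∀ i ∈ E, ∀ j ∈ E, ∀ A ⊆ U i ∩ U j, MeasurableSet A → μ i A = μ j A)
    (s : Finset ι) (hs : ∀ i ∈ s, i ∈ E) (hcov : ⋃ i ∈ s, U i = univ) :
    ∃ μ' : Measure X, ∀ i ∈ E, ∀ A ⊆ U i, MeasurableSet A → μ' A = μ i A := by
  obtain ⟨μ', h⟩ := glue_aux E U hU μ hc s hs
  refine ⟨μ', fun i hi A hA hm => h i hi A hA ?_ hm⟩
  rw [hcov]
  exact subset_univ A

theorem glue_unique {X ι : Type*} [MeasurableSpace X] (U : ι → Set X) (s : Finset ι)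
    (hU : ∀ i ∈ s, MeasurableSet (U i)) (hcov : ⋃ i ∈ s, U i = univ) (μ ν : Measure X)
    (h : ∀ i ∈ s, ∀ A ⊆ U i, MeasurableSet A → μ A = ν A) : μ = ν := by
  classical
  have key : ∀ t : Finset ι, (∀ i ∈ t, i ∈ s) → ∀ A ⊆ ⋃ i ∈ t, U i, MeasurableSet A → μ A = ν A := by
    intro t
    induction t using Finset.induction_on with
    | empty =>
      intro _ A hA _
      have h1 : A = ∅ := by
        rw [eq_empty_iff_forall_notMem]
        intro x hx
        have := hA hx
        simp at this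
      rw [h1, measure_empty, measure_empty]
    | insert a t ha ih =>
      intro ht A hA hm
      have haU := hU a (ht a (Finset.mem_insert_self a t))
      rw [← measure_inter_add_diff A haU, ← measure_inter_add_diff (μ := ν) A haU]
      rw [h a (ht a (Finset.mem_insert_self a t)) _ inter_subset_right (hm.inter haU)]
      rw [ih (fun i hi => ht i (Finset.mem_insert_of_mem hi)) (A \ U a) ?_ (hm.diff haU)]
      rintro x ⟨h1, h2⟩
      have h3 := hA h1
      rw [Finset.set_biUnion_insert] at h3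
      exact h3.resolve_left h2
  ext A hA
  refine key s (fun i hi => hi) A ?_ hA
  rw [hcov]
  exact subset_univ A

end Pool.Agent.CY
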