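import Pool.Agent.CY.S3.Fin

/-!
Project CY, part S3a: integrals in charts.

PLAN. From `IsVol.restrict_source`: `MeasurableEmbedding.lintegral_map`, `MeasurableEmbedding.integral_map`
(no measurability of the integrand needed), `lintegral_withDensity_eq_lintegral_mul₀'` /
`integral_withDensity_eq_integral_toReal_smul`, `setLIntegral` over subtypes (`lintegral_subtype_comap`,
`integral_subtype_comap`), `restrict_Hs` to pass from `Hs n` to `Ho n`.
-/

set_option autoImplicit false
set_option linter.unusedSectionVars false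

open scoped Manifold ContDiff ENNReal
open MeasureTheory Set Filter Topology

namespace Pool.Agent.CY

section general

variable {α X : Type} [MeasurableSpace α] [MeasurableSpace X] {μ : Measure α} {s : Set α}
  {F : α → X} {ρ : α → ℝ}

private theorem g_lint (hs : MeasurableSet s) (hF : MeasurableEmbedding (fun y : s => F y))
    (hρ : Measurable fun y : s => ρ y) (Φ : X → ℝ≥0∞) (hΦ : Measurable Φ) :
    ∫⁻ p, Φ p ∂(Measure.map (fun y : s => F y)
      ((Measure.comap (Subtype.val : s → α) μ).withDensity fun y => ENNReal.ofReal (ρ y))) =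
      ∫⁻ y in s, ENNReal.ofReal (ρ y) * Φ (F y) ∂μ := by
  rw [hF.lintegral_map]
  have h1 : Measurable fun y : s => Φ (F y) := hΦ.comp hF.measurable
  rw [lintegral_withDensity_eq_lintegral_mul₀' hρ.ennreal_ofReal.aemeasurable h1.aemeasurable]
  exact lintegral_subtype_comap hs (fun y => ENNReal.ofReal (ρ y) * Φ (F y))

private theorem g_int (hs : MeasurableSet s) (hF : MeasurableEmbedding (fun y : s => F y))
    (hρ : Measurable fun y : s => ρ y) (h0 : ∀ y ∈ s, 0 ≤ ρ y) (Ψ : X → ℝ) :
    ∫ p, Ψ p ∂(Measure.map (fun y : s => F y)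
      ((Measure.comap (Subtype.val : s → α) μ).withDensity fun y => ENNReal.ofReal (ρ y))) =
      ∫ y in s, Ψ (F y) * ρ y ∂μ := by
  rw [hF.integral_map, integral_withDensity_eq_integral_toReal_smul hρ.ennreal_ofReal
    (Filter.Eventually.of_forall fun _ => ENNReal.ofReal_lt_top)]
  rw [← integral_subtype_comap hs (fun y => Ψ (F y) * ρ y)]
  refine integral_congr_ae (Filter.Eventually.of_forall fun y => ?_)
  simp only [smul_eq_mul]
  rw [ENNReal.toReal_ofReal (h0 y y.2), mul_comm]

private theorem g_intble (hs : MeasurableSet s) (hF : MeasurableEmbedding (fun y : s => F y))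
    (hρ : Measurable fun y : s => ρ y) (h0 : ∀ y ∈ s, 0 ≤ ρ y) (Ψ : X → ℝ) :
    Integrable Ψ (Measure.map (fun y : s => F y)
      ((Measure.comap (Subtype.val : s → α) μ).withDensity fun y => ENNReal.ofReal (ρ y))) ↔
      IntegrableOn (fun y => Ψ (F y) * ρ y) s μ := by
  rw [hF.integrable_map_iff, integrable_withDensity_iff_integrable_smul' hρ.ennreal_ofReal
    (Filter.Eventually.of_forall fun _ => ENNReal.ofReal_lt_top)]
  rw [IntegrableOn, ← map_comap_subtype_coe hs, (MeasurableEmbedding.subtype_coe hs).integrable_map_iff]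
  refine integrable_congr (Filter.Eventually.of_forall fun y => ?_)
  simp only [smul_eq_mul, Function.comp_apply]
  rw [ENNReal.toReal_ofReal (h0 y y.2), mul_comm]

private theorem g_ae (hs : MeasurableSet s) (hF : MeasurableEmbedding (fun y : s => F y))
    (hρ : Measurable fun y : s => ρ y) (h0 : ∀ y ∈ s, 0 < ρ y) (P : X → Prop) :
    (∀ᵐ p ∂(Measure.map (fun y : s => F y)
      ((Measure.comap (Subtype.val : s → α) μ).withDensity fun y => ENNReal.ofReal (ρ y))), P p) ↔
      ∀ᵐ y ∂μ, y ∈ s → P (F y) := by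
  rw [hF.ae_map_iff, ae_withDensity_iff hρ.ennreal_ofReal, ← ae_restrict_iff' hs,
    ← map_comap_subtype_coe hs, (MeasurableEmbedding.subtype_coe hs).ae_map_iff]
  refine Filter.eventually_congr (Filter.Eventually.of_forall fun y => ?_)
  have h1 : ENNReal.ofReal (ρ y) ≠ 0 := by
    rw [Ne, ENNReal.ofReal_eq_zero, not_le]
    exact h0 y y.2
  exact ⟨fun h => h h1, fun h _ => h⟩

end general

section intChart

variable {n : ℕ} {X : Type} [TopologicalSpace X] [ChartedSpace (EuclideanHalfSpace (n + 1)) X]
  [IsManifold (𝓡∂ (n + 1)) ∞ X] [CompactSpace X] [T2Space X] [MeasurableSpace X] [BorelSpace X]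

omit [IsManifold (𝓡∂ (n + 1)) ∞ X] [CompactSpace X] [T2Space X] [MeasurableSpace X] [BorelSpace X] in
private theorem mS (g : Metric n X) {e : OpenPartialHomeomorph X (EuclideanHalfSpace (n + 1))}
    (he : e ∈ atlas (EuclideanHalfSpace (n + 1)) X) : Measurable fun y : dom e => rhoS g e y :=
  (continuousOn_iff_continuous_restrict.1 (continuousOn_rhoS g he)).measurable

omit [IsManifold (𝓡∂ (n + 1)) ∞ X] [CompactSpace X] [T2Space X] [MeasurableSpace X] [BorelSpace X] in
private theorem mB (g : Metric n X) {e : OpenPartialHomeomorph X (EuclideanHalfSpace (n + 1))}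
    (he : e ∈ atlas (EuclideanHalfSpace (n + 1)) X) : Measurable fun z : bdom e => rhoB g e z :=
  (continuousOn_iff_continuous_restrict.1 (continuousOn_rhoB g he)).measurable

theorem lint_vol_source (g : Metric n X) {e : OpenPartialHomeomorph X (EuclideanHalfSpace (n + 1))}
    (he : e ∈ atlas (EuclideanHalfSpace (n + 1)) X) (Φ : X → ℝ≥0∞) (hΦ : Measurable Φ) :
    ∫⁻ p in e.source, Φ p ∂(vol g) = ∫⁻ y in dom e, ENNReal.ofReal (rhoS g e y) * Φ (pt e y) := by
  rw [(vol_spec g).restrict_source he]
  exact g_lint (measurableSet_dom e) (measurableEmbedding_ptS e) (mS g he) Φ hΦ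

theorem lint_bvol_source (g : Metric n X) {e : OpenPartialHomeomorph X (EuclideanHalfSpace (n + 1))}
    (he : e ∈ atlas (EuclideanHalfSpace (n + 1)) X) (Φ : X → ℝ≥0∞) (hΦ : Measurable Φ) :
    ∫⁻ p in e.source, Φ p ∂(bvol g) = ∫⁻ z in bdom e, ENNReal.ofReal (rhoB g e z) * Φ (pt e (bd z)) := by
  rw [(bvol_spec g).restrict_source he]
  exact g_lint (F := fun z => pt e (bd z)) (isOpen_bdom e).measurableSet (measurableEmbedding_ptB e)
    (mB g he) Φ hΦ

theorem int_vol_source (g : Metric n X) {e : OpenPartialHomeomorph X (EuclideanHalfSpace (n + 1))}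
    (he : e ∈ atlas (EuclideanHalfSpace (n + 1)) X) (Ψ : X → ℝ) :
    ∫ p in e.source, Ψ p ∂(vol g) = ∫ y in dom e, Ψ (pt e y) * rhoS g e y := by
  rw [(vol_spec g).restrict_source he]
  exact g_int (measurableSet_dom e) (measurableEmbedding_ptS e) (mS g he)
    (fun y hy => (rhoS_pos g he hy).le) Ψ

theorem int_bvol_source (g : Metric n X) {e : OpenPartialHomeomorph X (EuclideanHalfSpace (n + 1))}
    (he : e ∈ atlas (EuclideanHalfSpace (n + 1)) X) (Ψ : X → ℝ) :
    ∫ p in e.source, Ψ p ∂(bvol g) = ∫ z in bdom e, Ψ (pt e (bd z)) * rhoB g e z := by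
  rw [(bvol_spec g).restrict_source he]
  exact g_int (F := fun z => pt e (bd z)) (isOpen_bdom e).measurableSet (measurableEmbedding_ptB e)
    (mB g he) (fun z hz => (rhoB_pos g he hz).le) Ψ

theorem integrableOn_vol_source (g : Metric n X)
    {e : OpenPartialHomeomorph X (EuclideanHalfSpace (n + 1))}
    (he : e ∈ atlas (EuclideanHalfSpace (n + 1)) X) (Ψ : X → ℝ) :
    IntegrableOn Ψ e.source (vol g) ↔ IntegrableOn (fun y => Ψ (pt e y) * rhoS g e y) (dom e) := by
  rw [IntegrableOn, (vol_spec g).restrict_source he]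
  exact g_intble (measurableSet_dom e) (measurableEmbedding_ptS e) (mS g he)
    (fun y hy => (rhoS_pos g he hy).le) Ψ

theorem integrableOn_bvol_source (g : Metric n X)
    {e : OpenPartialHomeomorph X (EuclideanHalfSpace (n + 1))}
    (he : e ∈ atlas (EuclideanHalfSpace (n + 1)) X) (Ψ : X → ℝ) :
    IntegrableOn Ψ e.source (bvol g) ↔ IntegrableOn (fun z => Ψ (pt e (bd z)) * rhoB g e z) (bdom e) := by
  rw [IntegrableOn, (bvol_spec g).restrict_source he]
  exact g_intble (F := fun z => pt e (bd z)) (isOpen_bdom e).measurableSet (measurableEmbedding_ptB e)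
    (mB g he) (fun z hz => (rhoB_pos g he hz).le) Ψ

/-- integral of a function supported in a chart -/
theorem int_vol_chart (g : Metric n X) {e : OpenPartialHomeomorph X (EuclideanHalfSpace (n + 1))}
    (he : e ∈ atlas (EuclideanHalfSpace (n + 1)) X) (Ψ : X → ℝ) (hs : Function.support Ψ ⊆ e.source) :
    ∫ p, Ψ p ∂(vol g) = ∫ y in Ho n, (dom e).indicator (fun y => Ψ (pt e y) * rhoS g e y) y := by
  rw [← setIntegral_eq_integral_of_forall_compl_eq_zero (s := e.source) (fun p hp => by
    by_contra h
    exact hp (hs h)), int_vol_source g he, ← restrict_Hs, setIntegral_indicator (measurableSet_dom e),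
    inter_eq_right.2 (dom_subset e)]

theorem int_bvol_chart (g : Metric n X) {e : OpenPartialHomeomorph X (EuclideanHalfSpace (n + 1))}
    (he : e ∈ atlas (EuclideanHalfSpace (n + 1)) X) (Ψ : X → ℝ) (hs : Function.support Ψ ⊆ e.source) :
    ∫ p, Ψ p ∂(bvol g) = ∫ z, (bdom e).indicator (fun z => Ψ (pt e (bd z)) * rhoB g e z) z := by
  rw [← setIntegral_eq_integral_of_forall_compl_eq_zero (s := e.source) (fun p hp => by
    by_contra h
    exact hp (hs h)), int_bvol_source g he, integral_indicator (isOpen_bdom e).measurableSet]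

theorem integrable_vol_chart (g : Metric n X) {e : OpenPartialHomeomorph X (EuclideanHalfSpace (n + 1))}
    (he : e ∈ atlas (EuclideanHalfSpace (n + 1)) X) (Ψ : X → ℝ) (hs : Function.support Ψ ⊆ e.source) :
    Integrable Ψ (vol g) ↔
      IntegrableOn ((dom e).indicator (fun y => Ψ (pt e y) * rhoS g e y)) (Ho n) := by
  rw [← integrableOn_iff_integrable_of_support_subset hs, integrableOn_vol_source g he, IntegrableOn,
    IntegrableOn, ← restrict_Hs, integrable_indicator_iff (measurableSet_dom e), IntegrableOn,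
    Measure.restrict_restrict (measurableSet_dom e), inter_eq_left.2 (dom_subset e)]

theorem integrable_bvol_chart (g : Metric n X) {e : OpenPartialHomeomorph X (EuclideanHalfSpace (n + 1))}
    (he : e ∈ atlas (EuclideanHalfSpace (n + 1)) X) (Ψ : X → ℝ) (hs : Function.support Ψ ⊆ e.source) :
    Integrable Ψ (bvol g) ↔
      Integrable ((bdom e).indicator (fun z => Ψ (pt e (bd z)) * rhoB g e z)) := by
  rw [← integrableOn_iff_integrable_of_support_subset hs, integrableOn_bvol_source g he,
    integrable_indicator_iff (isOpen_bdom e).measurableSet]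

/-- almost everywhere statements in a chart -/
theorem ae_vol_source (g : Metric n X) {e : OpenPartialHomeomorph X (EuclideanHalfSpace (n + 1))}
    (he : e ∈ atlas (EuclideanHalfSpace (n + 1)) X) (P : X → Prop) :
    (∀ᵐ p ∂(vol g), p ∈ e.source → P p) ↔ ∀ᵐ y : V (n + 1), y ∈ dom e → P (pt e y) := by
  rw [← ae_restrict_iff' e.open_source.measurableSet, (vol_spec g).restrict_source he]
  exact g_ae (measurableSet_dom e) (measurableEmbedding_ptS e) (mS g he)
    (fun y hy => rhoS_pos g he hy) P

theorem ae_bvol_source (g : Metric n X) {e : OpenPartialHomeomorph X (EuclideanHalfSpace (n + 1))}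
    (he : e ∈ atlas (EuclideanHalfSpace (n + 1)) X) (P : X → Prop) :
    (∀ᵐ p ∂(bvol g), p ∈ e.source → P p) ↔ ∀ᵐ z : V n, z ∈ bdom e → P (pt e (bd z)) := by
  rw [← ae_restrict_iff' e.open_source.measurableSet, (bvol_spec g).restrict_source he]
  exact g_ae (F := fun z => pt e (bd z)) (isOpen_bdom e).measurableSet (measurableEmbedding_ptB e)
    (mB g he) (fun z hz => rhoB_pos g he hz) P

end intChart

end Pool.Agent.CY
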