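import Pool.Agent.CY.S3.IntChart

/-!
Project CY, part S3a: points are null sets; boundary integrals of functions whose restriction to the boundary
is supported in a chart.
-/

set_option autoImplicit false
set_option linter.unusedSectionVars false

open scoped Manifold ContDiff ENNReal
open MeasureTheory Set Filter Topology

namespace Pool.Agent.CY

section points

variable {n : ℕ} {X : Type} [TopologicalSpace X] [ChartedSpace (EuclideanHalfSpace (n + 1)) X]
  [IsManifold (𝓡∂ (n + 1)) ∞ X] [CompactSpace X] [T2Space X] [MeasurableSpace X] [BorelSpace X]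

theorem vol_singleton (g : Metric n X) (p : X) : vol g {p} = 0 := by
  have he := chart_mem_atlas (EuclideanHalfSpace (n + 1)) p
  have hps := mem_chart_source (EuclideanHalfSpace (n + 1)) p
  rw [vol_spec g _ he {p} (singleton_subset_iff.2 hps) (measurableSet_singleton p)]
  refine setLIntegral_measure_zero _ _ ?_
  rw [image_singleton]
  have : Nonempty (Fin (n + 1)) := ⟨0⟩
  have : Nontrivial (V (n + 1)) := by infer_instance
  exact measure_singleton _

theorem bvol_singleton (hn : 1 ≤ n) (g : Metric n X) (p : X) : bvol g {p} = 0 := by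
  have he := chart_mem_atlas (EuclideanHalfSpace (n + 1)) p
  have hps := mem_chart_source (EuclideanHalfSpace (n + 1)) p
  rw [(bvol_spec g).2 _ he {p} (singleton_subset_iff.2 hps) (measurableSet_singleton p)]
  have : Nonempty (Fin n) := ⟨⟨0, hn⟩⟩
  have : Nontrivial (V n) := by infer_instance
  refine setLIntegral_measure_zero _ _ ?_
  rw [image_singleton]
  refine Set.Subsingleton.measure_zero ?_ _
  intro z hz w hw
  exact bd_injective ((mem_singleton_iff.1 hz).trans (mem_singleton_iff.1 hw).symm)

/-- integral over the boundary of a function whose restriction to the boundary vanishes outside of a chart -/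
theorem int_bvol_chart' (g : Metric n X) {e : OpenPartialHomeomorph X (EuclideanHalfSpace (n + 1))}
    (he : e ∈ atlas (EuclideanHalfSpace (n + 1)) X) (Ψ : X → ℝ)
    (hs : ∀ p ∈ (𝓡∂ (n + 1)).boundary X, p ∉ e.source → Ψ p = 0) :
    ∫ p, Ψ p ∂(bvol g) = ∫ z in bdom e, Ψ (pt e (bd z)) * rhoB g e z := by
  rw [← int_bvol_source g he, ← integral_indicator e.open_source.measurableSet]
  refine integral_congr_ae ?_
  filter_upwards [ae_bvol_boundary g] with p hp
  by_cases hpe : p ∈ e.source
  · rw [indicator_of_mem hpe]
  · rw [indicator_of_notMem hpe, hs p hp hpe]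

/-- a point can be removed from the domain: the chart only has to cover the boundary up to one point -/
theorem int_bvol_chart_punct (hn : 1 ≤ n) (g : Metric n X)
    {e : OpenPartialHomeomorph X (EuclideanHalfSpace (n + 1))}
    (he : e ∈ atlas (EuclideanHalfSpace (n + 1)) X) (Ψ : X → ℝ) (q : X)
    (hs : ∀ p ∈ (𝓡∂ (n + 1)).boundary X, p ≠ q → p ∉ e.source → Ψ p = 0) :
    ∫ p, Ψ p ∂(bvol g) = ∫ z in bdom e, Ψ (pt e (bd z)) * rhoB g e z := by
  rw [← int_bvol_source g he, ← integral_indicator e.open_source.measurableSet]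
  refine integral_congr_ae ?_
  have hq : ∀ᵐ p ∂(bvol g), p ≠ q := by
    rw [ae_iff]
    simp only [ne_eq, not_not]
    exact bvol_singleton hn g q
  filter_upwards [ae_bvol_boundary g, hq] with p hp hpq
  by_cases hpe : p ∈ e.source
  · rw [indicator_of_mem hpe]
  · rw [indicator_of_notMem hpe, hs p hp hpq hpe]

theorem int_vol_chart_punct (g : Metric n X)
    {e : OpenPartialHomeomorph X (EuclideanHalfSpace (n + 1))}
    (he : e ∈ atlas (EuclideanHalfSpace (n + 1)) X) (Ψ : X → ℝ) (q : X)
    (hs : ∀ p, p ≠ q → p ∉ e.source → Ψ p = 0) :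
    ∫ p, Ψ p ∂(vol g) = ∫ y in dom e, Ψ (pt e y) * rhoS g e y := by
  rw [← int_vol_source g he, ← integral_indicator e.open_source.measurableSet]
  refine integral_congr_ae ?_
  have hq : ∀ᵐ p ∂(vol g), p ≠ q := by
    rw [ae_iff]
    simp only [ne_eq, not_not]
    exact vol_singleton g q
  filter_upwards [hq] with p hpq
  by_cases hpe : p ∈ e.source
  · rw [indicator_of_mem hpe]
  · rw [indicator_of_notMem hpe, hs p hpq hpe]

end points

end Pool.Agent.CY
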