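import Pool.Agent.CY.S3.Compat
import Pool.Agent.CY.S3.Glue

/-!
Project CY, part S3a: existence and uniqueness of the volume measures.

PLAN. The atlas charts cover `X`; `exists_finite_cover` by compactness.  For each chart `e` the measure
`Measure.map (ptS e) ((Measure.comap Subtype.val volume).withDensity _)` (or directly `Measure.ofMeasurable`)
has the right values on measurable subsets of `e.source`; glue with `glue_measure`, `vol_compat`.
Boundary: the same; the mass of the complement of the boundary is zero by `pt_bd_mem_boundary`.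
-/

set_option autoImplicit false
set_option linter.unusedSectionVars false

open scoped Manifold ContDiff ENNReal
open MeasureTheory Set Filter Topology

namespace Pool.Agent.CY

section vol

variable {n : ℕ} {X : Type} [TopologicalSpace X] [ChartedSpace (EuclideanHalfSpace (n + 1)) X]

/-- the chart domains of finitely many charts cover a compact space -/
theorem exists_finite_cover [CompactSpace X] :
    ∃ s : Finset (OpenPartialHomeomorph X (EuclideanHalfSpace (n + 1))),
      (∀ e ∈ s, e ∈ atlas (EuclideanHalfSpace (n + 1)) X) ∧ ⋃ e ∈ s, e.source = univ := by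
  classical
  obtain ⟨t, ht⟩ := isCompact_univ.elim_finite_subcover
    (fun p : X => (chartAt (EuclideanHalfSpace (n + 1)) p).source)
    (fun p => (chartAt (EuclideanHalfSpace (n + 1)) p).open_source)
    (fun p _ => mem_iUnion.2 ⟨p, mem_chart_source _ p⟩)
  refine ⟨t.image (fun p => chartAt (EuclideanHalfSpace (n + 1)) p), ?_, ?_⟩
  · intro e he
    obtain ⟨p, -, rfl⟩ := Finset.mem_image.1 he
    exact chart_mem_atlas _ p
  · refine eq_univ_of_univ_subset fun p hp => ?_
    obtain ⟨q, hq, hpq⟩ := mem_iUnion₂.1 (ht hp)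
    exact mem_iUnion₂.2 ⟨_, Finset.mem_image_of_mem _ hq, hpq⟩

/-- the density of the volume measure -/
noncomputable def rhoS (g : Metric n X) (e : OpenPartialHomeomorph X (EuclideanHalfSpace (n + 1)))
    (y : V (n + 1)) : ℝ := Real.sqrt (g.G e y).det

/-- the density of the boundary volume measure -/
noncomputable def rhoB (g : Metric n X) (e : OpenPartialHomeomorph X (EuclideanHalfSpace (n + 1)))
    (z : V n) : ℝ := Real.sqrt (tang (g.G e) z).det

variable [IsManifold (𝓡∂ (n + 1)) ∞ X] [CompactSpace X] [T2Space X] [MeasurableSpace X] [BorelSpace X]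

/-- the volume measure of the chart `e` -/
noncomputable def volE (g : Metric n X) (e : OpenPartialHomeomorph X (EuclideanHalfSpace (n + 1))) :
    Measure X :=
  Measure.map (ptS e) ((Measure.comap (Subtype.val : dom e → V (n + 1)) volume).withDensity
        fun y => ENNReal.ofReal (rhoS g e y))

/-- the boundary volume measure of the chart `e` -/
noncomputable def bvolE (g : Metric n X) (e : OpenPartialHomeomorph X (EuclideanHalfSpace (n + 1))) :
    Measure X :=
  Measure.map (ptB e) ((Measure.comap (Subtype.val : bdom e → V n) volume).withDensity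
        fun z => ENNReal.ofReal (rhoB g e z))

omit [IsManifold (𝓡∂ (n + 1)) ∞ X] [CompactSpace X] [T2Space X] in
theorem volE_apply (g : Metric n X) (e : OpenPartialHomeomorph X (EuclideanHalfSpace (n + 1)))
    {A : Set X} (hA : A ⊆ e.source) (hm : MeasurableSet A) :
    volE g e A = ∫⁻ y in co e '' A, ENNReal.ofReal (rhoS g e y) := by
  have hE := measurableEmbedding_ptS (X := X) e
  rw [volE, hE.map_apply, withDensity_apply _ (hE.measurable hm)]
  rw [setLIntegral_subtype (measurableSet_dom e) _ (fun y => ENNReal.ofReal (rhoS g e y))]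
  congr 2
  rw [image_co e hA]
  ext y
  constructor
  · rintro ⟨z, hz, rfl⟩
    exact ⟨z.2, hz⟩
  · rintro ⟨h1, h2⟩
    exact ⟨⟨y, h1⟩, h2, rfl⟩

omit [IsManifold (𝓡∂ (n + 1)) ∞ X] [CompactSpace X] [T2Space X] in
theorem bvolE_apply (g : Metric n X) (e : OpenPartialHomeomorph X (EuclideanHalfSpace (n + 1)))
    {A : Set X} (hA : A ⊆ e.source) (hm : MeasurableSet A) :
    bvolE g e A = ∫⁻ z in {z : V n | bd z ∈ co e '' A}, ENNReal.ofReal (rhoB g e z) := by
  have hE := measurableEmbedding_ptB (X := X) e
  rw [bvolE, hE.map_apply, withDensity_apply _ (hE.measurable hm)]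
  rw [setLIntegral_subtype (isOpen_bdom e).measurableSet _ (fun z => ENNReal.ofReal (rhoB g e z))]
  congr 2
  rw [bimage_co e hA]
  ext y
  constructor
  · rintro ⟨z, hz, rfl⟩
    exact ⟨z.2, hz⟩
  · rintro ⟨h1, h2⟩
    exact ⟨⟨y, h1⟩, h2, rfl⟩

theorem exists_vol (g : Metric n X) : ∃ μ, IsVol g μ := by
  obtain ⟨s, hs, hcov⟩ := exists_finite_cover (n := n) (X := X)
  obtain ⟨μ, hμ⟩ := glue_measure (atlas (EuclideanHalfSpace (n + 1)) X) (fun e => e.source)
    (fun e _ => e.open_source.measurableSet) (volE g)
    (fun e he e' he' A hA hm => by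
      have h1 : A ⊆ e.source := fun p hp => (hA hp).1
      have h2 : A ⊆ e'.source := fun p hp => (hA hp).2
      rw [volE_apply g e h1 hm, volE_apply g e' h2 hm]
      exact vol_compat g he he' h1 h2 hm) s hs hcov
  refine ⟨μ, fun e he A hA hm => ?_⟩
  rw [hμ e he A hA hm, volE_apply g e hA hm]
  rfl

theorem exists_bvol (g : Metric n X) : ∃ σ, IsBVol g σ := by
  obtain ⟨s, hs, hcov⟩ := exists_finite_cover (n := n) (X := X)
  obtain ⟨σ, hσ⟩ := glue_measure (atlas (EuclideanHalfSpace (n + 1)) X) (fun e => e.source)
    (fun e _ => e.open_source.measurableSet) (bvolE g)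
    (fun e he e' he' A hA hm => by
      have h1 : A ⊆ e.source := fun p hp => (hA hp).1
      have h2 : A ⊆ e'.source := fun p hp => (hA hp).2
      rw [bvolE_apply g e h1 hm, bvolE_apply g e' h2 hm]
      exact bvol_compat g he he' h1 h2 hm) s hs hcov
  refine ⟨σ, ?_, fun e he A hA hm => ?_⟩
  · have h1 : ((𝓡∂ (n + 1)).boundary X)ᶜ ⊆ ⋃ e ∈ s, (((𝓡∂ (n + 1)).boundary X)ᶜ ∩ e.source) := by
      intro p hp
      have h2 : p ∈ ⋃ e ∈ s, e.source := by rw [hcov]; exact mem_univ p
      obtain ⟨e, he, hpe⟩ := mem_iUnion₂.1 h2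
      exact mem_iUnion₂.2 ⟨e, he, hp, hpe⟩
    refine measure_mono_null h1 ?_
    refine (measure_biUnion_null_iff s.countable_toSet).2 ?_
    intro e he
    have he' := hs e he
    have hm : MeasurableSet (((𝓡∂ (n + 1)).boundary X)ᶜ ∩ e.source) :=
      (isClosed_boundary (X := X)).measurableSet.compl.inter e.open_source.measurableSet
    rw [hσ e he' _ inter_subset_right hm, bvolE_apply g e inter_subset_right hm]
    have h3 : {z : V n | bd z ∈ co e '' (((𝓡∂ (n + 1)).boundary X)ᶜ ∩ e.source)} = ∅ := by
      rw [eq_empty_iff_forall_notMem]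
      rintro z ⟨p, ⟨hp1, hp2⟩, hp3⟩
      apply hp1
      rw [mem_boundary_iff he' hp2, hp3, bd_zero]
    rw [h3, Measure.restrict_empty, lintegral_zero_measure]
  · rw [hσ e he A hA hm, bvolE_apply g e hA hm]
    rfl

theorem vol_unique (g : Metric n X) (μ ν : Measure X) (h : IsVol g μ) (h' : IsVol g ν) : μ = ν := by
  obtain ⟨s, hs, hcov⟩ := exists_finite_cover (n := n) (X := X)
  refine glue_unique (fun e => e.source) s (fun e _ => e.open_source.measurableSet) hcov μ ν ?_
  intro e he A hA hm
  rw [h e (hs e he) A hA hm, h' e (hs e he) A hA hm]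

theorem bvol_unique (g : Metric n X) (μ ν : Measure X) (h : IsBVol g μ) (h' : IsBVol g ν) : μ = ν := by
  obtain ⟨s, hs, hcov⟩ := exists_finite_cover (n := n) (X := X)
  refine glue_unique (fun e => e.source) s (fun e _ => e.open_source.measurableSet) hcov μ ν ?_
  intro e he A hA hm
  rw [h.2 e (hs e he) A hA hm, h'.2 e (hs e he) A hA hm]

theorem vol_spec (g : Metric n X) : IsVol g (vol g) := Classical.epsilon_spec (exists_vol g)

theorem bvol_spec (g : Metric n X) : IsBVol g (bvol g) := Classical.epsilon_spec (exists_bvol g)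

/-- the volume measure on the source of a chart -/
theorem IsVol.restrict_source {g : Metric n X} {μ : Measure X} (h : IsVol g μ)
    {e : OpenPartialHomeomorph X (EuclideanHalfSpace (n + 1))}
    (he : e ∈ atlas (EuclideanHalfSpace (n + 1)) X) :
    μ.restrict e.source = Measure.map (ptS e)
      ((Measure.comap (Subtype.val : dom e → V (n + 1)) volume).withDensity
        fun y => ENNReal.ofReal (rhoS g e y)) := by
  ext A hA
  have h1 : Measure.map (ptS e) ((Measure.comap (Subtype.val : dom e → V (n + 1)) volume).withDensity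
        fun y => ENNReal.ofReal (rhoS g e y)) = volE g e := rfl
  rw [h1, Measure.restrict_apply hA,
    h e he _ inter_subset_right (hA.inter e.open_source.measurableSet)]
  have h2 : volE g e A = volE g e (A ∩ e.source) := by
    rw [volE, (measurableEmbedding_ptS e).map_apply, (measurableEmbedding_ptS e).map_apply]
    congr 1
    ext y
    exact ⟨fun h => ⟨h, pt_mem_source e y.2⟩, fun h => h.1⟩
  rw [h2, volE_apply g e inter_subset_right (hA.inter e.open_source.measurableSet)]
  rfl

theorem IsBVol.restrict_source {g : Metric n X} {σ : Measure X} (h : IsBVol g σ)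
    {e : OpenPartialHomeomorph X (EuclideanHalfSpace (n + 1))}
    (he : e ∈ atlas (EuclideanHalfSpace (n + 1)) X) :
    σ.restrict e.source = Measure.map (ptB e)
      ((Measure.comap (Subtype.val : bdom e → V n) volume).withDensity
        fun z => ENNReal.ofReal (rhoB g e z)) := by
  ext A hA
  have h1 : Measure.map (ptB e) ((Measure.comap (Subtype.val : bdom e → V n) volume).withDensity
        fun z => ENNReal.ofReal (rhoB g e z)) = bvolE g e := rfl
  rw [h1, Measure.restrict_apply hA,
    h.2 e he _ inter_subset_right (hA.inter e.open_source.measurableSet)]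
  have h2 : bvolE g e A = bvolE g e (A ∩ e.source) := by
    rw [bvolE, (measurableEmbedding_ptB e).map_apply, (measurableEmbedding_ptB e).map_apply]
    congr 1
    ext z
    exact ⟨fun h => ⟨h, pt_mem_source e z.2⟩, fun h => h.1⟩
  rw [h2, bvolE_apply g e inter_subset_right (hA.inter e.open_source.measurableSet)]
  rfl

end vol

end Pool.Agent.CY
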